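import Mathlib

/-!
A semisimple element of a Lie algebra lies in a Cartan subalgebra.
-/

open Module LieAlgebra LieSubalgebra

namespace Pool.Agent.Helper54.MT

attribute [local instance 100] LieRing.ofAssociativeRing

variable {K : Type*} [Field K] {L : Type*} [LieRing L] [LieAlgebra K L] [FiniteDimensional K L]

/-- A generic element. -/
lemma exists_generic [Infinite K] (A B : Finset K) :
    ∃ c : K, ∀ a ∈ A, ∀ b ∈ B, b ≠ 0 → a + c * b ≠ 0 := by
  classical
  obtain ⟨c, hc⟩ := Infinite.exists_notMem_finset ((A ×ˢ B).image (fun p => -p.1 / p.2))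
  refine ⟨c, fun a ha b hb hb0 h => hc ?_⟩
  rw [Finset.mem_image]
  refine ⟨(a, b), Finset.mem_product.mpr ⟨ha, hb⟩, ?_⟩
  rw [div_eq_iff hb0]
  linear_combination -h

/-- A semisimple element lies in a Cartan subalgebra. -/
theorem exists_cartan [IsAlgClosed K] [CharZero K] (y : L) (hy : (ad K L y).IsSemisimple) :
    ∃ H : LieSubalgebra K L, H.IsCartanSubalgebra ∧ y ∈ H := by
  classical
  have hinf : Infinite K := inferInstance
  -- an element of the centralizer of `y` with Engel subalgebra of least dimension
  have hex : ∃ n : ℕ, ∃ x : L, ⁅y, x⁆ = 0 ∧ finrank K (engel K x) = n := ⟨_, y, lie_self y, rfl⟩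
  obtain ⟨x, hx, hxn⟩ := Nat.find_spec hex
  have hmin : ∀ z : L, ⁅y, z⁆ = 0 → finrank K (engel K x) ≤ finrank K (engel K z) := by
    intro z hz
    rw [hxn]
    exact Nat.find_min' hex ⟨z, hz, rfl⟩
  have hcxy : Commute (ad K L x) (ad K L y) := by
    have h1 : ⁅ad K L x, ad K L y⁆ = 0 := by
      rw [← LieHom.map_lie, ← lie_skew, hx, neg_zero, map_zero]
    exact sub_eq_zero.mp h1
  -- the Engel subalgebra of `x` centralizes `y`
  have hU : ∀ z ∈ engel K x, ⁅y, z⁆ = 0 := by
    obtain ⟨A, hA⟩ : ∃ A : Finset K, ∀ μ, (ad K L x).HasEigenvalue μ → μ ∈ A := by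
      have := WellFoundedGT.finite_ne_bot_of_iSupIndep (ad K L x).eigenspaces_iSupIndep
      exact ⟨this.toFinset, fun μ h => by rw [Set.Finite.mem_toFinset]; exact h⟩
    obtain ⟨B, hB⟩ : ∃ A : Finset K, ∀ μ, (ad K L y).HasEigenvalue μ → μ ∈ A := by
      have := WellFoundedGT.finite_ne_bot_of_iSupIndep (ad K L y).eigenspaces_iSupIndep
      exact ⟨this.toFinset, fun μ h => by rw [Set.Finite.mem_toFinset]; exact h⟩
    obtain ⟨c, hc⟩ := exists_generic A B
    set D := ad K L (x + c • y) with hD
    have hDe : D = ad K L x + c • ad K L y := by rw [hD, map_add, map_smul]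
    have hDx : Commute D (ad K L x) := by
      rw [hDe]
      exact (Commute.refl _).add_left (hcxy.symm.smul_left c)
    have hDy : Commute D (ad K L y) := by
      rw [hDe]
      exact hcxy.add_left ((Commute.refl _).smul_left c)
    set M : Submodule K L := (engel K (x + c • y)).toSubmodule with hM
    have memM : ∀ z, z ∈ M ↔ ∃ n : ℕ, (D ^ n) z = 0 := by
      intro z
      exact mem_engel_iff K (x + c • y) z
    have stable : ∀ f : Module.End K L, Commute D f → ∀ z ∈ M, f z ∈ M := by
      intro f hf z hz
      rw [memM] at hz ⊢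
      obtain ⟨n, hn⟩ := hz
      refine ⟨n, ?_⟩
      rw [← Module.End.mul_apply, (hf.pow_left n).eq, Module.End.mul_apply, hn, map_zero]
    have hMy := stable _ hDy
    have hMx := stable _ hDx
    have hMU : ∀ z ∈ M, ⁅y, z⁆ = 0 := by
      have h0 : (ad K L y).restrict hMy = 0 := by
        have hss : Module.End.IsSemisimple ((ad K L y).restrict hMy) := hy.restrict (p := M) hMy
        rw [hss.eq_zero_iff_forall_eigenvalue]
        intro μ hμ
        by_contra hμ0
        -- the eigenspace
        set N : Submodule K L := (ad K L y).eigenspace μ ⊓ M with hN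
        have hNne : Nontrivial N := by
          obtain ⟨⟨v, hv⟩, hvm, hv0⟩ := hμ.exists_hasEigenvector
          rw [Module.End.mem_eigenspace_iff] at hvm
          rw [Submodule.nontrivial_iff_ne_bot, Submodule.ne_bot_iff]
          refine ⟨v, ⟨Module.End.mem_eigenspace_iff.mpr (congrArg Subtype.val hvm), hv⟩, ?_⟩
          intro h
          exact hv0 (Subtype.ext h)
        have hNx : ∀ z ∈ N, ad K L x z ∈ N := by
          rintro z ⟨hz1, hz2⟩
          refine ⟨?_, hMx z hz2⟩
          have hz1' := Module.End.mem_eigenspace_iff.mp hz1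
          exact Module.End.mem_eigenspace_iff.mpr (by
            rw [← Module.End.mul_apply, hcxy.symm.eq, Module.End.mul_apply, hz1', map_smul])
        obtain ⟨ξ, hξ⟩ := Module.End.exists_eigenvalue ((ad K L x).restrict hNx)
        obtain ⟨⟨v, hv⟩, hvm, hv0⟩ := hξ.exists_hasEigenvector
        rw [Module.End.mem_eigenspace_iff] at hvm
        have hvx : ad K L x v = ξ • v := congrArg Subtype.val hvm
        have hvy : ad K L y v = μ • v := Module.End.mem_eigenspace_iff.mp hv.1
        have hv0' : v ≠ 0 := fun h => hv0 (Subtype.ext h)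
        have hDv : D v = (ξ + c * μ) • v := by
          rw [hDe, LinearMap.add_apply, LinearMap.smul_apply, hvx, hvy, smul_smul, add_smul]
        have hDn : ∀ n : ℕ, (D ^ n) v = (ξ + c * μ) ^ n • v := by
          intro n
          induction n with
          | zero => simp
          | succ n ih =>
            rw [pow_succ', Module.End.mul_apply, ih, map_smul, hDv, smul_smul, pow_succ]
        obtain ⟨n, hn⟩ := (memM v).mp hv.2
        rw [hDn] at hn
        rcases smul_eq_zero.mp hn with h1 | h1
        · have h2 : ξ + c * μ = 0 := eq_zero_of_pow_eq_zero h1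
          refine hc ξ (hA ξ ?_) μ (hB μ ?_) hμ0 h2
          · exact Module.End.hasEigenvalue_of_hasEigenvector
              ⟨Module.End.mem_eigenspace_iff.mpr hvx, hv0'⟩
          · exact Module.End.hasEigenvalue_of_hasEigenvector
              ⟨Module.End.mem_eigenspace_iff.mpr hvy, hv0'⟩
        · exact hv0' h1
      intro z hz
      have := congrArg (fun f : Module.End K M => (f ⟨z, hz⟩ : L)) h0
      exact this
    have hMx' : M ≤ (engel K x).toSubmodule := by
      intro z hz
      obtain ⟨n, hn⟩ := (memM z).mp hz
      refine (mem_engel_iff K x z).mpr ⟨n, ?_⟩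
      have hpow : ∀ n : ℕ, ∀ z ∈ M, (D ^ n) z = ((ad K L x) ^ n) z := by
        intro n
        induction n with
        | zero => intro z _; rfl
        | succ n ih =>
          intro z hz
          rw [pow_succ, pow_succ, Module.End.mul_apply, Module.End.mul_apply]
          have h1 : D z = ad K L x z := by
            rw [hDe, LinearMap.add_apply, LinearMap.smul_apply]
            have : ad K L y z = 0 := hMU z hz
            rw [this, smul_zero, add_zero]
          rw [h1]
          exact ih _ (hMx z hz)
      rw [← hpow n z hz]; exact hn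
    have hzc : ⁅y, x + c • y⁆ = 0 := by
      rw [lie_add, hx, lie_smul, lie_self, smul_zero, add_zero]
    have hfr := hmin _ hzc
    have heq : M = (engel K x).toSubmodule := Submodule.eq_of_le_of_finrank_le hMx' hfr
    intro z hz
    apply hMU
    rw [heq]
    exact hz
  refine ⟨engel K x, ⟨?_, normalizer_engel _ _⟩, ?_⟩
  · apply isNilpotent_of_forall_le_engel
    intro z hz
    set Ex : {engel K z | z ∈ engel K x} := ⟨engel K x, x, self_mem_engel _ _, rfl⟩ with hEx
    suffices IsBot Ex from @this ⟨engel K z, z, hz, rfl⟩
    apply engel_isBot_of_isMin (Cardinal.natCast_le_aleph0.trans (Cardinal.infinite_iff.mp hinf))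
      (engel K x) Ex le_rfl
    rintro ⟨_, z, hz, rfl⟩ hzx
    have h1 : finrank K (engel K x) ≤ finrank K (engel K z) := hmin z (hU z hz)
    have h2 : (engel K z).toSubmodule ≤ (engel K x).toSubmodule := hzx
    have h3 := Submodule.eq_of_le_of_finrank_le h2 h1
    have h4 : engel K x ≤ engel K z := by
      intro w hw
      have : w ∈ (engel K x).toSubmodule := hw
      rw [← h3] at this
      exact this
    exact h4
  · rw [mem_engel_iff]
    refine ⟨1, ?_⟩
    rw [pow_one, ad_apply, ← lie_skew, hx, neg_zero]

/-- A semisimple operator is semisimple in the adjoint representation of every Lie algebra of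
operators containing it. -/
lemma ad_semisimple {V : Type*} [AddCommGroup V] [Module K V] [FiniteDimensional K V]
    [IsAlgClosed K] [CharZero K] {L : LieSubalgebra K (Module.End K V)} {y : L}
    (hy : (y : Module.End K V).IsSemisimple) : (ad K L y).IsSemisimple := by
  have h1 : (ad K (Module.End K V) (y : Module.End K V)).IsSemisimple :=
    LieAlgebra.ad_isSemisimple_of_isSemisimple hy
  have h2 : ∀ z ∈ L.toSubmodule, ad K (Module.End K V) (y : Module.End K V) z ∈ L.toSubmodule :=
    fun z hz => L.lie_mem y.2 hz
  exact h1.restrict (p := L.toSubmodule) h2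

/-- A semisimple operator lies in a Cartan subalgebra of every Lie algebra of operators
containing it. -/
theorem exists_cartan_end {V : Type*} [AddCommGroup V] [Module K V] [FiniteDimensional K V]
    [IsAlgClosed K] [CharZero K] {L : LieSubalgebra K (Module.End K V)} (y : L)
    (hy : (y : Module.End K V).IsSemisimple) :
    ∃ H : LieSubalgebra K L, H.IsCartanSubalgebra ∧ y ∈ H :=
  exists_cartan y (ad_semisimple hy)

end Pool.Agent.Helper54.MT
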