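import Pool.Agent.Helper54.MT.Arith

/-!
Operators which are diagonalizable with integral eigenvalues.
-/

open Module Polynomial

namespace Pool.Agent.Helper54.MT

variable {K : Type*} [Field K] {V : Type*} [AddCommGroup V] [Module K V]

/-- The eigenvalues of an operator diagonalizable over the integers are integers. -/
lemma int_of_diag {y : Module.End K V} (h : ⨆ n : ℤ, y.eigenspace (n : K) = ⊤) :
    ∀ μ, y.eigenspace μ ≠ ⊥ → ∃ k : ℤ, (k : K) = μ := by
  intro μ hμ
  by_contra hcon
  push Not at hcon
  apply hμ
  have h1 := y.eigenspaces_iSupIndep μ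
  have h2 : (⊤ : Submodule K V) ≤ ⨆ j, ⨆ _ : j ≠ μ, y.eigenspace j := by
    rw [← h]
    apply iSup_le
    intro n
    exact le_iSup₂_of_le (n : K) (hcon n) le_rfl
  rw [top_le_iff.mp h2, disjoint_top] at h1
  exact h1

variable [FiniteDimensional K V]

/-- A diagonalizable operator is semisimple. -/
lemma semisimple_of_diag {y : Module.End K V} (h : ⨆ μ, y.eigenspace μ = ⊤) :
    y.IsSemisimple := by
  classical
  obtain ⟨Λ, hΛ⟩ := exists_finset y
  apply Module.End.isSemisimple_of_squarefree_aeval_eq_zero (p := ∏ μ ∈ Λ, (X - C μ))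
  · have h1 : (∏ μ ∈ Λ, (X - C μ) : K[X]).Separable :=
      Polynomial.separable_prod' (fun a _ b _ hab => by
        have := Polynomial.pairwise_coprime_X_sub_C (s := (id : K → K)) Function.injective_id hab
        exact this) (fun a _ => Polynomial.separable_X_sub_C)
    exact h1.squarefree
  · ext v
    have hv : v ∈ ⨆ μ, y.eigenspace μ := by rw [h]; trivial
    induction hv using Submodule.iSup_induction' with
    | mem μ x hx =>
      by_cases hx0 : x = 0
      · rw [hx0, map_zero, map_zero]
      · have hm : μ ∈ Λ := by
          apply (hΛ μ).mp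
          intro h0
          rw [h0] at hx
          exact hx0 ((Submodule.mem_bot K).mp hx)
        rw [aeval_eigen hx, eval_prod, Finset.prod_eq_zero hm (by simp), zero_smul]
        rfl
    | zero => rw [map_zero, map_zero]
    | add x z _ _ hx hz => rw [map_add, map_add, hx, hz]

lemma semisimple_of_int {y : Module.End K V} (h : ⨆ n : ℤ, y.eigenspace (n : K) = ⊤) :
    y.IsSemisimple := by
  apply semisimple_of_diag
  rw [eq_top_iff, ← h]
  exact iSup_le (fun n => le_iSup (fun μ : K => y.eigenspace μ) (n : K))

end Pool.Agent.Helper54.MT
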