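import Pool.Agent.Helper54.MT.TwoMain
import Pool.Agent.Helper21.MT.Span

/-!
The number of odd eigenvalues for a Lie algebra which is not simple.
-/

open Module

namespace Pool.Agent.Helper54.MT

attribute [local instance 100] LieRing.ofAssociativeRing

variable {K : Type*} [Field K] {V : Type*} [AddCommGroup V] [Module K V] [FiniteDimensional K V]
variable {ω : LinearMap.BilinForm K V} {L : LieSubalgebra K (Module.End K V)}

omit [FiniteDimensional K V] in
lemma irreducible_of [Nontrivial V] (hL : MTP.IrrSymp ω L.toSubmodule) :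
    LieModule.IsIrreducible K L V := by
  have key : ∀ N : LieSubmodule K L V, N = ⊥ ∨ N = ⊤ := by
    intro N
    rcases hL.irr N.toSubmodule (fun z hz w hw => N.lie_mem (x := (⟨z, hz⟩ : L)) hw) with h | h
    · left
      exact (LieSubmodule.toSubmodule_eq_bot N).mp h
    · right
      exact (LieSubmodule.toSubmodule_eq_top N).mp h
  exact { exists_pair_ne := ⟨⊥, ⊤, bot_ne_top⟩, eq_bot_or_eq_top := key }

omit [FiniteDimensional K V] in
lemma faithful_of : LieModule.IsFaithful K L V := by
  constructor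
  intro a b h
  apply Subtype.ext
  exact h

/-- An irreducible Lie algebra of infinitesimal symplectic operators is semisimple. -/
lemma killing_of [CharZero K] [IsAlgClosed K] [Nontrivial V] (hω : ω.Nondegenerate)
    (hL : MTP.IrrSymp ω L.toSubmodule) : LieAlgebra.IsKilling K L := by
  have := irreducible_of hL
  have : LieModule.IsFaithful K L V := faithful_of
  have : LieAlgebra.HasTrivialRadical K L := by
    apply LieAlgebra.hasTrivialRadical_of_isIrreducible_of_isFaithful K L V
    intro x
    exact MTP.trace_eq_zero_of_sk hω (hL.sk x x.2)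
  exact inferInstance

/-- **The case of a Lie algebra which is not simple.** -/
theorem nonsimple [CharZero K] [IsAlgClosed K] {S : Set (Module.End K V)}
    (hC : MTP.Ctx ω L.toSubmodule S) (hns : ¬ LieAlgebra.IsSimple K L) {y : Module.End K V}
    (hy : y ∈ L) (sy : y.IsSemisimple)
    (hint : ∀ μ, y.eigenspace μ ≠ ⊥ → ∃ k : ℤ, (k : K) = μ) :
    4 ∣ nodd y ∨ 2 * nodd y = finrank K V := by
  rcases subsingleton_or_nontrivial V with hV | hV
  · left
    have : nodd y = 0 := by
      unfold nodd
      exact finrank_zero_of_subsingleton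
    rw [this]; exact dvd_zero 4
  have hω := hC.nd
  have hk : LieAlgebra.IsKilling K L := killing_of hω hC.irr
  by_cases hab : IsLieAbelian L
  · left
    have hsub : Subsingleton L := LieAlgebra.subsingleton_of_hasTrivialRadical_lie_abelian K L
    have hy0 : y = 0 := congrArg Subtype.val (Subsingleton.elim (⟨y, hy⟩ : L) 0)
    have : nodd y = 0 := by
      unfold nodd
      rw [Submodule.finrank_eq_zero]
      unfold oddPart
      rw [eq_bot_iff]
      apply iSup_le
      intro k v hv
      rw [Module.End.mem_eigenspace_iff, hy0, LinearMap.zero_apply] at hv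
      rcases smul_eq_zero.mp hv.symm with h1 | h1
      · exfalso
        have h2 : ((k : ℤ) : K) = ((0 : ℤ) : K) := by rw [h1]; simp
        have h3 : (k : ℤ) = 0 := Int.cast_injective h2
        have h4 := k.2
        rw [h3] at h4
        exact (by decide : ¬ Odd (0 : ℤ)) h4
      · exact h1
    rw [this]; exact dvd_zero 4
  have hI : ∃ I : LieIdeal K L, I ≠ ⊥ ∧ I ≠ ⊤ := by
    by_contra hcon
    push Not at hcon
    apply hns
    exact { eq_bot_or_eq_top := fun I => by
              by_cases h : I = ⊥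
              · exact Or.inl h
              · exact Or.inr (hcon I h)
            non_abelian := hab }
  obtain ⟨I, hI0, hI1⟩ := hI
  set J : LieIdeal K L := Iᶜ with hJ
  have hinf : I ⊓ J = ⊥ := inf_compl_eq_bot
  have hsup : I ⊔ J = ⊤ := sup_compl_eq_top
  have hJ0 : J ≠ ⊥ := by
    intro h
    rw [h, sup_bot_eq] at hsup
    exact hI1 hsup
  set I' : Submodule K (Module.End K V) := I.toSubmodule.map L.toSubmodule.subtype with hI'
  set J' : Submodule K (Module.End K V) := J.toSubmodule.map L.toSubmodule.subtype with hJ'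
  have memI : ∀ a : L, (a : Module.End K V) ∈ I' ↔ a ∈ I := by
    intro a
    constructor
    · rintro ⟨b, hb, hba⟩
      have : b = a := Subtype.ext hba
      rw [← this]; exact hb
    · intro ha
      exact ⟨a, ha, rfl⟩
  have memJ : ∀ a : L, (a : Module.End K V) ∈ J' ↔ a ∈ J := by
    intro a
    constructor
    · rintro ⟨b, hb, hba⟩
      have : b = a := Subtype.ext hba
      rw [← this]; exact hb
    · intro ha
      exact ⟨a, ha, rfl⟩
  have exI : ∀ x ∈ I', ∃ a : L, a ∈ I ∧ (a : Module.End K V) = x := by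
    rintro _ ⟨x, hx, rfl⟩
    exact ⟨x, hx, rfl⟩
  have exJ : ∀ x ∈ J', ∃ a : L, a ∈ J ∧ (a : Module.End K V) = x := by
    rintro _ ⟨x, hx, rfl⟩
    exact ⟨x, hx, rfl⟩
  have brI : ∀ x ∈ I', ∀ z ∈ I', x * z - z * x ∈ I' := by
    intro x hx z hz
    obtain ⟨x, hx', rfl⟩ := exI x hx
    obtain ⟨z, hz', rfl⟩ := exI z hz
    exact (memI ⁅x, z⁆).mpr (I.lie_mem (x := x) hz')
  have brJ : ∀ x ∈ J', ∀ z ∈ J', x * z - z * x ∈ J' := by
    intro x hx z hz
    obtain ⟨x, hx', rfl⟩ := exJ x hx
    obtain ⟨z, hz', rfl⟩ := exJ z hz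
    exact (memJ ⁅x, z⁆).mpr (J.lie_mem (x := x) hz')
  have split : ∀ z ∈ L, ∃ a ∈ I', ∃ b ∈ J', a + b = z := by
    intro z hz
    have : (⟨z, hz⟩ : L) ∈ I ⊔ J := by rw [hsup]; trivial
    rw [LieSubmodule.mem_sup] at this
    obtain ⟨a, ha, b, hb, hab⟩ := this
    exact ⟨a, (memI a).mpr ha, b, (memJ b).mpr hb, congrArg Subtype.val hab⟩
  have hT : Two I' J' := by
    constructor
    · intro a ha b hb
      obtain ⟨a, ha', rfl⟩ := exI a ha
      obtain ⟨b, hb', rfl⟩ := exJ b hb
      have h1 : ⁅a, b⁆ ∈ I ⊓ J := by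
        constructor
        · have := I.lie_mem (x := b) ha'
          rw [← lie_skew] at this
          exact (neg_mem_iff (H := I)).mp this
        · exact J.lie_mem (x := a) hb'
      rw [hinf] at h1
      have h2 : ⁅a, b⁆ = 0 := (LieSubmodule.mem_bot _).mp h1
      have h3 := congrArg Subtype.val h2
      exact sub_eq_zero.mp h3
    · intro W h1 h2
      apply hC.irr.irr W
      intro z hz w hw
      obtain ⟨a, ha, b, hb, rfl⟩ := split z hz
      rw [LinearMap.add_apply]
      exact W.add_mem (h1 a ha w hw) (h2 b hb w hw)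
  have skI : ∀ a ∈ I', MTP.IsSk ω a := by
    rintro _ ⟨a, _, rfl⟩
    exact hC.irr.sk a a.2
  have skJ : ∀ a ∈ J', MTP.IsSk ω a := by
    rintro _ ⟨a, _, rfl⟩
    exact hC.irr.sk a a.2
  have hS : ∀ s ∈ S, s ∈ I' ∨ s ∈ J' := by
    intro s hs
    obtain ⟨hsL, hss⟩ := hC.inv s hs
    obtain ⟨a, ha, b, hb, rfl⟩ := split s hsL
    rcases hT.inv_split hω skI ha hb hss with h | h
    · right; rw [h, zero_add]; exact hb
    · left; rw [h, add_zero]; exact ha
  have h1 : ∃ s ∈ S, s ∈ I' := by
    by_contra hcon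
    push Not at hcon
    have h2 := hC.gen J' brJ (fun s hs => (hS s hs).resolve_left (hcon s hs))
    apply hI0
    rw [eq_bot_iff, ← hinf]
    intro a ha
    exact ⟨ha, (memJ a).mp (h2 a.2)⟩
  have h2 : ∃ s ∈ S, s ∈ J' := by
    by_contra hcon
    push Not at hcon
    have h2 := hC.gen I' brI (fun s hs => (hS s hs).resolve_right (hcon s hs))
    apply hJ0
    rw [eq_bot_iff, ← hinf]
    intro a ha
    exact ⟨(memI a).mp (h2 a.2), ha⟩
  obtain ⟨s1, hs1, hs1'⟩ := h1
  obtain ⟨s2, hs2, hs2'⟩ := h2
  obtain ⟨y1, hy1, y2, hy2, rfl⟩ := split y hy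
  exact hT.main hω skI skJ hs1' (hC.inv s1 hs1).2 hs2' (hC.inv s2 hs2).2 hy1 hy2 sy hint

end Pool.Agent.Helper54.MT
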