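import Mathlib

/-!
# Small weights of root systems
-/

namespace Pool.Agent.Helper54.MT

open RootPairing

variable {ι K M N : Type*} [Field K] [CharZero K] [AddCommGroup M] [Module K M]
  [AddCommGroup N] [Module K N] (P : RootPairing ι K M N)

/-- All pairings with coroots are `-1`, `0` or `1`. -/
def Small (x : M) : Prop := ∀ i, P.coroot' i x = -1 ∨ P.coroot' i x = 0 ∨ P.coroot' i x = 1

section

variable [Fintype ι] [P.IsCrystallographic]

/-- The squared lengths of the roots. -/
noncomputable def len (i : ι) : ℤ := (P.posRootForm ℤ).rootLength i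

/-- The invariant form. -/
noncomputable def fm : LinearMap.BilinForm K M := (P.posRootForm ℤ).form

theorem len_pos (i : ι) : 0 < len P i := (P.posRootForm ℤ).rootLength_pos i

theorem fm_self (i : ι) : fm P (P.root i) (P.root i) = (len P i : K) := by
  have := (P.posRootForm ℤ).algebraMap_rootLength i
  simpa [len, fm] using this.symm

theorem fm_symm (x y : M) : fm P x y = fm P y x := by
  have := (P.posRootForm ℤ).symm.eq x y
  simpa [fm] using this

theorem fm_refl (i : ι) (x y : M) : fm P (P.reflection i x) (P.reflection i y) = fm P x y :=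
  (P.posRootForm ℤ).isOrthogonal_reflection i x y

theorem fm_root (x : M) (j : ι) : 2 * fm P x (P.root j) = P.coroot' j x * (len P j : K) := by
  have h := fm_refl P j x (P.root j)
  rw [reflection_apply, reflection_apply_self, map_neg, map_sub, LinearMap.sub_apply, map_smul,
    LinearMap.smul_apply, fm_self, smul_eq_mul] at h
  linear_combination -h

theorem pair_cast (i j : ι) : P.coroot' j (P.root i) = (P.pairingIn ℤ i j : K) := by
  rw [root_coroot'_eq_pairing]
  have := P.algebraMap_pairingIn ℤ i j
  simpa using this.symm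

theorem fm_root_root (i j : ι) :
    2 * fm P (P.root i) (P.root j) = (P.pairingIn ℤ i j : K) * (len P j : K) := by
  rw [fm_root, pair_cast]

theorem pair_len (i j : ι) : P.pairingIn ℤ i j * len P j = P.pairingIn ℤ j i * len P i := by
  have h1 := fm_root_root P i j
  have h2 := fm_root_root P j i
  rw [fm_symm, h2] at h1
  exact_mod_cast h1.symm

theorem pair_zero {i j : ι} (h : P.pairingIn ℤ i j = 0) : P.pairingIn ℤ j i = 0 := by
  have h1 := pair_len P i j
  rw [h, zero_mul] at h1
  rcases mul_eq_zero.mp h1.symm with h2 | h2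
  · exact h2
  · exact absurd h2 (len_pos P i).ne'

theorem pair_self (i : ι) : P.pairingIn ℤ i i = 2 := P.pairingIn_same ℤ i

variable {P}

theorem Small.int {x : M} (hx : Small P x) (i : ι) :
    ∃ a : ℤ, P.coroot' i x = (a : K) ∧ (a = -1 ∨ a = 0 ∨ a = 1) := by
  rcases hx i with h | h | h
  · exact ⟨-1, by simp [h], Or.inl rfl⟩
  · exact ⟨0, by simp [h], Or.inr (Or.inl rfl)⟩
  · exact ⟨1, by simp [h], Or.inr (Or.inr rfl)⟩

/-- The value of a small weight on a sum of roots which is a root. -/
theorem Small.sum_root {x : M} (hx : Small P x) {i j k : ι} (hi : P.coroot' i x = 1)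
    (hj : P.coroot' j x = 1) (hk : P.root k = P.root i + P.root j) :
    P.coroot' k x = 1 ∧ P.pairingIn ℤ i j = 0 := by
  obtain ⟨a, ha, ha'⟩ := hx.int k
  have e1 : 2 * fm P x (P.root k) = (len P i : K) + (len P j : K) := by
    rw [hk, map_add, mul_add, fm_root, fm_root, hi, hj, one_mul, one_mul]
  rw [fm_root, ha] at e1
  have e2 : fm P (P.root k) (P.root k) =
      (len P i : K) + (len P j : K) + (P.pairingIn ℤ i j : K) * (len P j : K) := by
    rw [hk, map_add, map_add, LinearMap.add_apply, LinearMap.add_apply, fm_self, fm_self,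
      fm_symm P (P.root j) (P.root i)]
    have := fm_root_root P i j
    linear_combination this
  rw [fm_self] at e2
  have e1' : a * len P k = len P i + len P j := by exact_mod_cast e1
  have e2' : len P k = len P i + len P j + P.pairingIn ℤ i j * len P j := by exact_mod_cast e2
  have p1 := len_pos P i
  have p2 := len_pos P j
  have p3 := len_pos P k
  have ha1 : a = 1 := by
    rcases ha' with rfl | rfl | rfl
    · linarith
    · linarith
    · rfl
  refine ⟨by rw [ha, ha1]; simp, ?_⟩
  rw [ha1, one_mul] at e1'
  have : P.pairingIn ℤ i j * len P j = 0 := by linarith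
  rcases mul_eq_zero.mp this with h | h
  · exact h
  · exact absurd h p2.ne'

theorem Small.pair_nonneg {x : M} (hx : Small P x) {i j : ι} (hi : P.coroot' i x = 1)
    (hj : P.coroot' j x = 1) : 0 ≤ P.pairingIn ℤ i j := by
  by_contra hneg
  rw [not_le] at hneg
  have hne : P.root i ≠ -P.root j := by
    intro h
    have h1 : P.root i + P.root j = 0 := by rw [h]; simp
    have h2 : fm P x (P.root i + P.root j) = 0 := by rw [h1, map_zero]
    have h3 : 2 * fm P x (P.root i + P.root j) = (len P i : K) + (len P j : K) := by
      rw [map_add, mul_add, fm_root, fm_root, hi, hj, one_mul, one_mul]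
    rw [h2, mul_zero] at h3
    have h4 : (0 : ℤ) = len P i + len P j := by exact_mod_cast h3
    have := len_pos P i
    have := len_pos P j
    omega
  obtain ⟨k, hk⟩ := P.root_add_root_mem_of_pairingIn_neg hneg hne
  have := (hx.sum_root hi hj hk).2
  omega

/-- The value of a small weight on a difference of roots which is a root. -/
theorem Small.pair_le_two {x : M} (hx : Small P x) {i j : ι} (hi : P.coroot' i x = 1)
    (hj : P.coroot' j x = 1) (hij : i ≠ j) : P.pairingIn ℤ i j ≤ 2 := by
  by_contra hlt
  rw [not_le] at hlt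
  obtain ⟨k, hk⟩ := P.root_sub_root_mem_of_pairingIn_pos (by omega : 0 < P.pairingIn ℤ i j) hij
  obtain ⟨a, ha, ha'⟩ := hx.int k
  have e1 : 2 * fm P x (P.root k) = (len P i : K) - (len P j : K) := by
    rw [hk, map_sub, mul_sub, fm_root, fm_root, hi, hj, one_mul, one_mul]
  rw [fm_root, ha] at e1
  have e2 : fm P (P.root k) (P.root k) =
      (len P i : K) + (len P j : K) - (P.pairingIn ℤ i j : K) * (len P j : K) := by
    rw [hk, map_sub, map_sub, LinearMap.sub_apply, LinearMap.sub_apply, fm_self, fm_self,
      fm_symm P (P.root j) (P.root i)]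
    have := fm_root_root P i j
    linear_combination -this
  rw [fm_self] at e2
  have e1' : a * len P k = len P i - len P j := by exact_mod_cast e1
  have e2' : len P k = len P i + len P j - P.pairingIn ℤ i j * len P j := by exact_mod_cast e2
  have p1 := len_pos P i
  have p2 := len_pos P j
  have p3 := len_pos P k
  have p4 : 3 * len P j ≤ P.pairingIn ℤ i j * len P j :=
    mul_le_mul_of_nonneg_right (by omega) p2.le
  rcases ha' with rfl | rfl | rfl
  · linarith
  · linarith
  · linarith

/-! ### Separation -/

theorem coroot_list (i : ι) (l : List ι) :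
    P.coroot' i (l.map P.root).sum = (((l.map fun j => P.pairingIn ℤ j i).sum : ℤ) : K) := by
  induction l with
  | nil => simp
  | cons j l ih =>
    rw [List.map_cons, List.sum_cons, map_add, ih, pair_cast, List.map_cons, List.sum_cons]
    push_cast
    ring

/-- Two different small weights whose difference is a sum of roots are separated by a root. -/
theorem Small.separate {x y : M} (hx : Small P x) (hy : Small P y) (hne : x ≠ y)
    (h : ∃ l : List ι, x = y + (l.map P.root).sum) :
    ∃ i, P.coroot' i x = 1 ∧ P.coroot' i y = -1 := by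
  classical
  have hex : ∃ n, ∃ l : List ι, l.length = n ∧ x = y + (l.map P.root).sum := by
    obtain ⟨l, hl⟩ := h
    exact ⟨l.length, l, rfl, hl⟩
  obtain ⟨l, hln, hl⟩ := Nat.find_spec hex
  have hmin : ∀ l' : List ι, x = y + (l'.map P.root).sum → l.length ≤ l'.length := by
    intro l' hl'
    rw [hln]
    exact Nat.find_min' hex ⟨l', rfl, hl'⟩
  cases l with
  | nil =>
    rw [List.map_nil, List.sum_nil, add_zero] at hl
    exact absurd hl hne
  | cons i t =>
    have hpos : ∀ j ∈ t, 0 ≤ P.pairingIn ℤ j i := by
      intro j hj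
      by_contra hneg
      rw [not_le] at hneg
      obtain ⟨t1, t2, rfl⟩ := List.append_of_mem hj
      have hsum : ((i :: (t1 ++ j :: t2)).map P.root).sum =
          (P.root j + P.root i) + ((t1 ++ t2).map P.root).sum := by
        simp only [List.map_cons, List.map_append, List.sum_cons, List.sum_append]
        abel
      by_cases h0 : P.root j = -P.root i
      · have := hmin (t1 ++ t2) (by rw [hl, hsum, h0]; simp)
        simp only [List.length_cons, List.length_append] at this
        omega
      · obtain ⟨k, hk⟩ := P.root_add_root_mem_of_pairingIn_neg hneg h0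
        have := hmin (k :: (t1 ++ t2)) (by
          rw [hl, hsum, ← hk, List.map_cons, List.sum_cons])
        simp only [List.length_cons, List.length_append] at this
        omega
    have h0 : 0 ≤ (t.map fun j => P.pairingIn ℤ j i).sum := by
      apply List.sum_nonneg
      intro a ha
      obtain ⟨j, hj, rfl⟩ := List.mem_map.mp ha
      exact hpos j hj
    obtain ⟨a, ha, ha'⟩ := hx.int i
    obtain ⟨b, hb, hb'⟩ := hy.int i
    have e : P.coroot' i x = P.coroot' i y +
        (((((i :: t).map fun j => P.pairingIn ℤ j i).sum : ℤ)) : K) := by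
      conv_lhs => rw [hl]
      rw [map_add, coroot_list]
    rw [ha, hb, List.map_cons, List.sum_cons, pair_self] at e
    have e' : a = b + (2 + (t.map fun j => P.pairingIn ℤ j i).sum) := by exact_mod_cast e
    refine ⟨i, ?_, ?_⟩
    · have : a = 1 := by omega
      rw [ha, this]; simp
    · have : b = -1 := by omega
      rw [hb, this]; simp

/-! ### Orthogonal sets of roots -/

/-- Pairwise orthogonal roots. -/
def Orth (P : RootPairing ι K M N) [P.IsCrystallographic] (A : Finset ι) : Prop :=
  ∀ i ∈ A, ∀ j ∈ A, i ≠ j → P.pairingIn ℤ i j = 0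

/-- The product of the reflections in orthogonal roots. -/
noncomputable def rs (P : RootPairing ι K M N) (A : Finset ι) (x : M) : M :=
  x - ∑ j ∈ A, P.coroot' j x • P.root j

theorem coroot_sum (i : ι) (A : Finset ι) (c : ι → K) :
    P.coroot' i (∑ j ∈ A, c j • P.root j) = ∑ j ∈ A, c j * (P.pairingIn ℤ j i : K) := by
  rw [map_sum]
  refine Finset.sum_congr rfl fun j _ => ?_
  rw [map_smul, pair_cast, smul_eq_mul]

theorem rs_insert [DecidableEq ι] {A : Finset ι} {j : ι} (hj : j ∉ A)
    (hA : ∀ k ∈ A, P.pairingIn ℤ k j = 0) (x : M) :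
    rs P (insert j A) x = P.reflection j (rs P A x) := by
  have h1 : P.coroot' j (rs P A x) = P.coroot' j x := by
    rw [rs, map_sub, coroot_sum, Finset.sum_eq_zero, sub_zero]
    intro k hk
    rw [hA k hk]
    simp
  rw [reflection_apply, h1, rs, rs, Finset.sum_insert hj]
  abel

theorem Orth.subset {A B : Finset ι} (hB : Orth P B) (h : A ⊆ B) : Orth P A :=
  fun i hi j hj hij => hB i (h hi) j (h hj) hij

theorem rs_induction {A : Finset ι} (hA : Orth P A) (C : M → Prop)
    (hC : ∀ i x, C x → C (P.reflection i x)) {x : M} (hx : C x) : C (rs P A x) := by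
  classical
  induction A using Finset.induction_on with
  | empty => simpa [rs] using hx
  | insert j A hj ih =>
    rw [rs_insert hj]
    · exact hC j _ (ih (hA.subset (Finset.subset_insert _ _)))
    · intro k hk
      exact hA k (Finset.mem_insert_of_mem hk) j (Finset.mem_insert_self _ _)
        (by rintro rfl; exact hj hk)

theorem fm_rs {A : Finset ι} (hA : Orth P A) (x y : M) :
    fm P (rs P A x) (rs P A y) = fm P x y := by
  classical
  induction A using Finset.induction_on with
  | empty => simp [rs]
  | insert j A hj ih =>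
    have h : ∀ k ∈ A, P.pairingIn ℤ k j = 0 := by
      intro k hk
      exact hA k (Finset.mem_insert_of_mem hk) j (Finset.mem_insert_self _ _)
        (by rintro rfl; exact hj hk)
    rw [rs_insert hj h, rs_insert hj h, fm_refl]
    exact ih (hA.subset (Finset.subset_insert _ _))

theorem rs_rs {A : Finset ι} (hA : Orth P A) (x : M) : rs P A (rs P A x) = x := by
  classical
  have h1 : ∀ j ∈ A, P.coroot' j (rs P A x) = - P.coroot' j x := by
    intro j hj
    rw [rs, map_sub, coroot_sum, Finset.sum_eq_single j]
    · rw [pair_self]; push_cast; ring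
    · intro k hk hkj
      rw [hA k hk j hj hkj]
      simp
    · intro h; exact absurd hj h
  have h2 : ∑ j ∈ A, P.coroot' j (rs P A x) • P.root j =
      - ∑ j ∈ A, P.coroot' j x • P.root j := by
    rw [← Finset.sum_neg_distrib]
    refine Finset.sum_congr rfl fun j hj => ?_
    rw [h1 j hj, neg_smul]
  rw [rs, h2, rs]
  abel

/-- A finite set of small weights. -/
structure WeightSet (P : RootPairing ι K M N) (W : Set M) : Prop where
  small : ∀ x ∈ W, Small P x
  refl : ∀ x ∈ W, ∀ i, P.reflection i x ∈ W
  neg : ∀ x ∈ W, -x ∈ W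
  conn : ∀ x ∈ W, ∀ y ∈ W, ∃ l : List ι, x = y + (l.map P.root).sum

theorem sum_ones {A : Finset ι} {x : M} (h : ∀ i ∈ A, P.coroot' i x = 1) :
    rs P A x = x - ∑ j ∈ A, P.root j := by
  rw [rs]
  congr 1
  refine Finset.sum_congr rfl fun j hj => ?_
  rw [h j hj, one_smul]

/-- Twice a weight is a sum of orthogonal roots. -/
theorem WeightSet.exists_orth {W : Set M} (hW : WeightSet P W) {x : M} (hx : x ∈ W) :
    ∃ A : Finset ι, (∀ i ∈ A, P.coroot' i x = 1) ∧ Orth P A ∧ ∑ i ∈ A, P.root i = x + x := by
  classical
  let F : Finset (Finset ι) := Finset.univ.filter fun A =>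
    (∀ i ∈ A, P.coroot' i x = 1) ∧ Orth P A
  have hne : F.Nonempty := ⟨∅, Finset.mem_filter.mpr ⟨Finset.mem_univ _,
    by intro i hi; simp at hi, by intro i hi; simp at hi⟩⟩
  obtain ⟨A, hAF, hmax⟩ := F.exists_max_image Finset.card hne
  obtain ⟨hA1, hA2⟩ := (Finset.mem_filter.mp hAF).2
  refine ⟨A, hA1, hA2, ?_⟩
  by_contra hcon
  have hy : rs P A x ∈ W := rs_induction hA2 (fun y => y ∈ W) (fun i y hy => hW.refl y hy i) hx
  have hyx : rs P A x ≠ -x := by
    intro h
    rw [sum_ones hA1] at h
    apply hcon
    have : ∑ j ∈ A, P.root j = x - (x - ∑ j ∈ A, P.root j) := by abel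
    rw [this, h]
    abel
  obtain ⟨i, hi1, hi2⟩ := (hW.small _ hy).separate (hW.small _ (hW.neg x hx)) hyx
    (hW.conn _ hy _ (hW.neg x hx))
  have hi3 : P.coroot' i x = 1 := by
    rw [map_neg] at hi2
    linear_combination -hi2
  rw [sum_ones hA1, map_sub, hi3] at hi1
  have hsum : ∑ j ∈ A, P.pairingIn ℤ j i = 0 := by
    have h1 := coroot_sum (P := P) i A (fun _ => 1)
    simp only [one_smul, one_mul] at h1
    rw [h1] at hi1
    have : (((∑ j ∈ A, P.pairingIn ℤ j i : ℤ)) : K) = 0 := by
      push_cast
      linear_combination -hi1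
    exact_mod_cast this
  have hzero := (Finset.sum_eq_zero_iff_of_nonneg (fun j hj =>
    (hW.small x hx).pair_nonneg (hA1 j hj) hi3)).mp hsum
  have hiA : i ∉ A := by
    intro h
    have := hzero i h
    rw [pair_self] at this
    omega
  have hmem : insert i A ∈ F := by
    refine Finset.mem_filter.mpr ⟨Finset.mem_univ _, ?_, ?_⟩
    · intro j hj
      rcases Finset.mem_insert.mp hj with rfl | hj
      · exact hi3
      · exact hA1 j hj
    · intro j hj k hk hjk
      rcases Finset.mem_insert.mp hj with h | hj'
      · rcases Finset.mem_insert.mp hk with h' | hk'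
        · exact absurd (h.trans h'.symm) hjk
        · rw [h]; exact pair_zero P (hzero k hk')
      · rcases Finset.mem_insert.mp hk with h' | hk'
        · rw [h']; exact hzero j hj'
        · exact hA2 j hj' k hk' hjk
  have := hmax _ hmem
  rw [Finset.card_insert_of_notMem hiA] at this
  omega

/-- Twice a weight is a sum of strongly orthogonal roots. -/
theorem WeightSet.exists_sorth {W : Set M} (hW : WeightSet P W) {x : M} (hx : x ∈ W) :
    ∃ A : Finset ι, (∀ i ∈ A, P.coroot' i x = 1) ∧ Orth P A ∧ ∑ i ∈ A, P.root i = x + x ∧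
      ∀ i ∈ A, ∀ j ∈ A, i ≠ j → P.root i + P.root j ∉ Set.range P.root := by
  classical
  let F : Finset (Finset ι) := Finset.univ.filter fun A =>
    (∀ i ∈ A, P.coroot' i x = 1) ∧ Orth P A ∧ ∑ i ∈ A, P.root i = x + x
  have hne : F.Nonempty := by
    obtain ⟨A, h⟩ := hW.exists_orth hx
    exact ⟨A, Finset.mem_filter.mpr ⟨Finset.mem_univ _, h⟩⟩
  obtain ⟨A, hAF, hmin⟩ := F.exists_min_image Finset.card hne
  obtain ⟨hA1, hA2, hA3⟩ := (Finset.mem_filter.mp hAF).2
  refine ⟨A, hA1, hA2, hA3, ?_⟩
  rintro i hi j hj hij ⟨k, hk⟩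
  have hk1 := ((hW.small x hx).sum_root (hA1 i hi) (hA1 j hj) hk).1
  have hkl : ∀ l, P.pairingIn ℤ k l = P.pairingIn ℤ i l + P.pairingIn ℤ j l := by
    intro l
    have := pair_cast P k l
    rw [hk, map_add, pair_cast, pair_cast] at this
    exact_mod_cast this.symm
  set B := (A.erase i).erase j with hB
  have hkB : k ∉ B := by
    intro h
    have h1 := hkl i
    rw [pair_self, hA2 j hj i hi (Ne.symm hij)] at h1
    have h2 : k ∈ A := Finset.mem_of_mem_erase (Finset.mem_of_mem_erase h)
    have h3 : k ≠ i := Finset.ne_of_mem_erase (Finset.mem_of_mem_erase h)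
    rw [hA2 k h2 i hi h3] at h1
    omega
  have hji : j ∈ A.erase i := Finset.mem_erase.mpr ⟨Ne.symm hij, hj⟩
  have hmem : insert k B ∈ F := by
    refine Finset.mem_filter.mpr ⟨Finset.mem_univ _, ?_, ?_, ?_⟩
    · intro l hl
      rcases Finset.mem_insert.mp hl with rfl | hl
      · exact hk1
      · exact hA1 l (Finset.mem_of_mem_erase (Finset.mem_of_mem_erase hl))
    · have hzero : ∀ l ∈ B, P.pairingIn ℤ k l = 0 := by
        intro l hl
        have h2 : l ∈ A := Finset.mem_of_mem_erase (Finset.mem_of_mem_erase hl)
        have h3 : l ≠ i := Finset.ne_of_mem_erase (Finset.mem_of_mem_erase hl)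
        have h4 : l ≠ j := Finset.ne_of_mem_erase hl
        rw [hkl, hA2 i hi l h2 (Ne.symm h3), hA2 j hj l h2 (Ne.symm h4), add_zero]
      intro l hl m hm hlm
      rcases Finset.mem_insert.mp hl with h | hl'
      · rcases Finset.mem_insert.mp hm with h' | hm'
        · exact absurd (h.trans h'.symm) hlm
        · rw [h]; exact hzero m hm'
      · rcases Finset.mem_insert.mp hm with h' | hm'
        · rw [h']; exact pair_zero P (hzero l hl')
        · exact hA2 l (Finset.mem_of_mem_erase (Finset.mem_of_mem_erase hl')) m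
            (Finset.mem_of_mem_erase (Finset.mem_of_mem_erase hm')) hlm
    · rw [Finset.sum_insert hkB, hk, ← hA3, ← Finset.add_sum_erase A P.root hi,
        ← Finset.add_sum_erase (A.erase i) P.root hji]
      abel
  have h1 := hmin _ hmem
  rw [Finset.card_insert_of_notMem hkB, hB, Finset.card_erase_of_mem hji,
    Finset.card_erase_of_mem hi] at h1
  have h2 : 2 ≤ A.card := by
    have : ({i, j} : Finset ι) ⊆ A := by
      intro l hl
      rcases Finset.mem_insert.mp hl with rfl | hl
      · exact hi
      · rw [Finset.mem_singleton.mp hl]; exact hj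
    have := Finset.card_le_card this
    rwa [Finset.card_pair hij] at this
  omega

end

end Pool.Agent.Helper54.MT
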