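import Mathlib

/-!
Two commuting sets of operators which act irreducibly together: the first one acts isotypically.
-/

open Module

namespace Pool.Agent.Helper54.MT

/-- The trace of a scalar acting on a module. -/
noncomputable def chi (K : Type*) [Field K] {A : Type*} [Ring A] [Algebra K A] (N : Type*)
    [AddCommGroup N] [Module K N] [Module A N] [IsScalarTower K A N] (x : A) : K :=
  LinearMap.trace K N (Algebra.lsmul K K N x)

section chi

variable {K : Type*} [Field K] {A : Type*} [Ring A] [Algebra K A]

lemma chi_congr {N N' : Type*} [AddCommGroup N] [Module K N] [Module A N] [IsScalarTower K A N]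
    [AddCommGroup N'] [Module K N'] [Module A N'] [IsScalarTower K A N']
    [FiniteDimensional K N] [FiniteDimensional K N'] (e : N ≃ₗ[A] N') (x : A) :
    chi K N x = chi K N' x := by
  unfold chi
  rw [← LinearMap.trace_conj' (Algebra.lsmul K K N x) (e.restrictScalars K)]
  congr 1
  ext v
  simp [LinearEquiv.conj_apply]

lemma chi_prod {N N' : Type*} [AddCommGroup N] [Module K N] [Module A N] [IsScalarTower K A N]
    [AddCommGroup N'] [Module K N'] [Module A N'] [IsScalarTower K A N']
    [FiniteDimensional K N] [FiniteDimensional K N'] (x : A) :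
    chi K (N × N') x = chi K N x + chi K N' x := by
  unfold chi
  rw [← LinearMap.trace_prodMap']
  congr 1

lemma chi_fin {N : Type*} [AddCommGroup N] [Module K N] [Module A N] [IsScalarTower K A N]
    [FiniteDimensional K N] (x : A) (n : ℕ) :
    chi K (Fin n → N) x = n * chi K N x := by
  induction n with
  | zero =>
    unfold chi
    have : (Algebra.lsmul K K (Fin 0 → N) x : (Fin 0 → N) →ₗ[K] (Fin 0 → N)) = 0 :=
      Subsingleton.elim _ _
    rw [this]
    simp
  | succ n ih =>
    rw [← chi_congr (Fin.consLinearEquiv A (fun _ : Fin (n + 1) => N)) x]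
    have : chi K (N × (Fin n → N)) x = chi K N x + chi K (Fin n → N) x := chi_prod x
    rw [this, ih]
    push_cast
    ring

lemma chi_one {N : Type*} [AddCommGroup N] [Module K N] [Module A N] [IsScalarTower K A N]
    [FiniteDimensional K N] : chi K N (1 : A) = finrank K N := by
  unfold chi
  rw [map_one, LinearMap.trace_one]

end chi

variable {K : Type*} [Field K] {V : Type*} [AddCommGroup V] [Module K V]

/-- Two commuting spaces of operators which act irreducibly together. -/
structure Two (I J : Submodule K (Module.End K V)) : Prop where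
  comm : ∀ a ∈ I, ∀ b ∈ J, a * b = b * a
  irr : ∀ W : Submodule K V, (∀ a ∈ I, ∀ w ∈ W, a w ∈ W) → (∀ b ∈ J, ∀ w ∈ W, b w ∈ W) →
    W = ⊥ ∨ W = ⊤

variable {I J : Submodule K (Module.End K V)}

lemma Two.symm (h : Two I J) : Two J I where
  comm a ha b hb := (h.comm b hb a ha).symm
  irr W h1 h2 := h.irr W h2 h1

lemma Two.comm_adjoin (h : Two I J) {x : Module.End K V} (hx : x ∈ Algebra.adjoin K (I : Set _))
    {b : Module.End K V} (hb : b ∈ J) : x * b = b * x := by
  induction hx using Algebra.adjoin_induction with
  | mem x hx => exact h.comm x hx b hb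
  | algebraMap r => exact Algebra.commutes r b
  | add x y _ _ hx hy => rw [add_mul, mul_add, hx, hy]
  | mul x y _ _ hx hy => rw [mul_assoc, hy, ← mul_assoc, hx, mul_assoc]

lemma adjoin_stable {M : Submodule K V} (hM : ∀ a ∈ I, ∀ w ∈ M, a w ∈ M) {x : Module.End K V}
    (hx : x ∈ Algebra.adjoin K (I : Set (Module.End K V))) : ∀ w ∈ M, x w ∈ M := by
  induction hx using Algebra.adjoin_induction with
  | mem x hx => exact hM x hx
  | algebraMap r =>
    intro w hw
    exact M.smul_mem r hw
  | add x y _ _ hx hy =>
    intro w hw
    exact M.add_mem (hx w hw) (hy w hw)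
  | mul x y _ _ hx hy =>
    intro w hw
    exact hx _ (hy w hw)

/-- A subspace stable under the second space which contains a nonzero subspace stable under the
first one is everything. -/
lemma Two.eq_top (h : Two I J) {M R : Submodule K V} (hM : M ≠ ⊥)
    (hMI : ∀ a ∈ I, ∀ w ∈ M, a w ∈ M) (hRJ : ∀ b ∈ J, ∀ w ∈ R, b w ∈ R) (hMR : M ≤ R) :
    R = ⊤ := by
  let W : Submodule K V :=
    { carrier := {v | ∀ x ∈ Algebra.adjoin K (I : Set (Module.End K V)), x v ∈ R}
      add_mem' := by
        intro v w hv hw x hx
        rw [map_add]; exact R.add_mem (hv x hx) (hw x hx)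
      zero_mem' := by
        intro x _
        rw [map_zero]; exact R.zero_mem
      smul_mem' := by
        intro c v hv x hx
        rw [map_smul]; exact R.smul_mem c (hv x hx) }
  have hW1 : ∀ a ∈ I, ∀ w ∈ W, a w ∈ W := by
    intro a ha w hw x hx
    exact hw (x * a) (mul_mem hx (Algebra.subset_adjoin ha))
  have hW2 : ∀ b ∈ J, ∀ w ∈ W, b w ∈ W := by
    intro b hb w hw x hx
    have : x (b w) = b (x w) := by
      rw [← Module.End.mul_apply, h.comm_adjoin hx hb]; rfl
    rw [this]
    exact hRJ b hb _ (hw x hx)
  have hMW : M ≤ W := by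
    intro w hw x hx
    exact hMR (adjoin_stable hMI hx w hw)
  rcases h.irr W hW1 hW2 with h0 | h0
  · exfalso
    apply hM
    rw [eq_bot_iff, ← h0]
    exact hMW
  · rw [eq_top_iff, ← h0]
    intro w hw
    have := hw 1 (one_mem _)
    exact this

/-- A stable subspace as a submodule over the algebra generated by `I`. -/
def subOf (M : Submodule K V) (hM : ∀ a ∈ I, ∀ w ∈ M, a w ∈ M) :
    Submodule (Algebra.adjoin K (I : Set (Module.End K V))) V where
  carrier := M
  add_mem' := M.add_mem
  zero_mem' := M.zero_mem
  smul_mem' x w hw := adjoin_stable hM x.2 w hw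

variable [FiniteDimensional K V]

omit [FiniteDimensional K V] in
lemma chi_subOf (M : Submodule K V) (hM : ∀ a ∈ I, ∀ w ∈ M, a w ∈ M)
    (x : Algebra.adjoin K (I : Set (Module.End K V)))
    (hx : ∀ w ∈ M, (x : Module.End K V) w ∈ M) :
    LinearMap.trace K M ((x : Module.End K V).restrict hx) = chi K (subOf M hM) x := by
  let e : M ≃ₗ[K] (subOf M hM) :=
    { toFun := fun v => ⟨v.1, v.2⟩
      invFun := fun v => ⟨v.1, v.2⟩
      map_add' := fun _ _ => rfl
      map_smul' := fun _ _ => rfl
      left_inv := fun _ => rfl
      right_inv := fun _ => rfl }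
  unfold chi
  rw [← LinearMap.trace_conj' (N := subOf M hM) ((x : Module.End K V).restrict hx) e]
  rfl

/-- **The first space acts isotypically.** -/
theorem Two.trace_mul (h : Two I J) {x : Module.End K V}
    (hx : x ∈ Algebra.adjoin K (I : Set (Module.End K V))) {M : Submodule K V}
    (hM : ∀ a ∈ I, ∀ w ∈ M, a w ∈ M) (hxM : ∀ w ∈ M, x w ∈ M) :
    (finrank K V : K) * LinearMap.trace K M (x.restrict hxM)
      = finrank K M * LinearMap.trace K V x := by
  classical
  rcases subsingleton_or_nontrivial V with hV | hV
  · have : finrank K V = 0 := finrank_zero_of_subsingleton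
    rw [this]
    have : finrank K M = 0 := finrank_zero_of_subsingleton
    rw [this]
    simp
  set A := Algebra.adjoin K (I : Set (Module.End K V)) with hA
  have : IsArtinian A V := isArtinian_of_tower K inferInstance
  have hfin : Module.Finite A V := Module.Finite.of_restrictScalars_finite K A V
  obtain ⟨S, hS⟩ := IsAtomic.exists_atom (Submodule A V)
  rw [← isSimpleModule_iff_isAtom] at hS
  have hC : isotypicComponent A V S = ⊤ := by
    have h1 := h.irr ((isotypicComponent A V S).restrictScalars K)
      (by
        intro a ha w hw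
        exact (isotypicComponent A V S).smul_mem (⟨a, Algebra.subset_adjoin ha⟩ : A) hw)
      (by
        intro b hb w hw
        let f : V →ₗ[A] V :=
          { toFun := b
            map_add' := map_add b
            map_smul' := by
              intro x v
              have := h.comm_adjoin x.2 hb
              change b ((x : Module.End K V) v) = (x : Module.End K V) (b v)
              rw [← Module.End.mul_apply, ← Module.End.mul_apply, this] }
        exact LinearMap.le_comap_isotypicComponent S f hw)
    rcases h1 with h1 | h1
    · exfalso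
      have h2 := bot_lt_isotypicComponent S
      rw [bot_lt_iff_ne_bot] at h2
      apply h2
      rw [eq_bot_iff]
      intro w hw
      have : w ∈ (isotypicComponent A V S).restrictScalars K := hw
      rw [h1] at this
      exact this
    · rw [eq_top_iff]
      intro w _
      have : w ∈ (isotypicComponent A V S).restrictScalars K := by rw [h1]; trivial
      exact this
  have hty : IsIsotypicOfType A V S := IsIsotypicOfType.of_isotypicComponent_eq_top hC
  have hss : IsSemisimpleModule A V := by
    have : IsSemisimpleModule A (isotypicComponent A V S) := inferInstance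
    rw [hC] at this
    exact IsSemisimpleModule.congr (M := (⊤ : Submodule A V)) (N := V)
      (Submodule.topEquiv (R := A) (M := V)).symm
  have hty' : IsIsotypicOfType A (subOf M hM) S :=
    hty.of_injective (subOf M hM).subtype (Submodule.injective_subtype _)
  have hfinM : Module.Finite A (subOf M hM) := inferInstance
  obtain ⟨n, ⟨e⟩⟩ := hty.linearEquiv_fun
  obtain ⟨m, ⟨e'⟩⟩ := hty'.linearEquiv_fun
  have hfS : FiniteDimensional K S := FiniteDimensional.finiteDimensional_submodule (S.restrictScalars K)
  have hfM : FiniteDimensional K (subOf M hM) :=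
    FiniteDimensional.finiteDimensional_submodule ((subOf M hM).restrictScalars K)
  have c1 : ∀ y : A, chi K V y = n * chi K S y := fun y => by
    rw [chi_congr (N' := Fin n → S) e y, chi_fin]
  have c2 : ∀ y : A, chi K (subOf M hM) y = m * chi K S y := fun y => by
    rw [chi_congr (N' := Fin m → S) e' y, chi_fin]
  have t1 : LinearMap.trace K V x = chi K V (⟨x, hx⟩ : A) := rfl
  have t2 : LinearMap.trace K M (x.restrict hxM) = chi K (subOf M hM) (⟨x, hx⟩ : A) :=
    chi_subOf M hM ⟨x, hx⟩ hxM
  have d1 : (finrank K V : K) = chi K V (1 : A) := chi_one.symm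
  have d2 : (finrank K M : K) = chi K (subOf M hM) (1 : A) := by
    rw [← chi_subOf M hM (1 : A) (fun w hw => hw)]
    have : ((1 : A) : Module.End K V).restrict (fun w (hw : w ∈ M) => hw) = 1 := rfl
    rw [this, LinearMap.trace_one]
  rw [t1, t2, d1, d2, c1, c1, c2, c2]
  ring

end Pool.Agent.Helper54.MT
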