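import Pool.Agent.Helper54.MT.Arith

/-!
The number of odd eigenvalues for two commuting Lie algebras acting irreducibly together.
-/

open Module Polynomial

namespace Pool.Agent.Helper54.MT

variable {K : Type*} [Field K] {V : Type*} [AddCommGroup V] [Module K V] [FiniteDimensional K V]
variable {ω : LinearMap.BilinForm K V} {I J : Submodule K (Module.End K V)}

omit [FiniteDimensional K V] in
/-- An involution is semisimple. -/
lemma semisimple_of_sq [CharZero K] {s : Module.End K V} (hs : s * s = 1) : s.IsSemisimple := by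
  apply Module.End.isSemisimple_of_squarefree_aeval_eq_zero (p := (X ^ 2 - 1 : K[X]))
  · have : Separable (X ^ 2 - 1 : K[X]) := by
      have h2 : ((2 : ℕ) : K) ≠ 0 := by norm_num
      exact Polynomial.X_pow_sub_one_separable_iff.mpr h2
    exact this.squarefree
  · rw [map_sub, map_pow, aeval_X, map_one, pow_two, hs, sub_self]

omit [FiniteDimensional K V] in
lemma sq_eigen {s : Module.End K V} (hs : s * s = 1) {μ : K} (h : s.eigenspace μ ≠ ⊥) :
    μ * μ = 1 := by
  obtain ⟨v, hv, hv0⟩ := Submodule.exists_mem_ne_zero_of_ne_bot h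
  rw [Module.End.mem_eigenspace_iff] at hv
  have h1 : (s * s) v = (μ * μ) • v := by
    rw [Module.End.mul_apply, hv, map_smul, hv, smul_smul]
  rw [hs, Module.End.one_apply] at h1
  have h2 : (μ * μ - 1) • v = 0 := by rw [sub_smul, one_smul, ← h1, sub_self]
  rcases smul_eq_zero.mp h2 with h3 | h3
  · exact sub_eq_zero.mp h3
  · exact absurd h3 hv0

/-- The `+1` eigenspace of a skew involution is half of the space. -/
lemma half [IsAlgClosed K] [CharZero K] (hω : ω.Nondegenerate) {s : Module.End K V}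
    (hs : s * s = 1) (hsk : MTP.IsSk ω s) :
    2 * finrank K (s.eigenspace 1) = finrank K V := by
  classical
  have h1 := trace_aeval (semisimple_of_sq hs).iSup_eigenspace_eq_top {1, -1}
    (fun μ hμ => by
      have := sq_eigen hs hμ
      rw [Finset.mem_insert, Finset.mem_singleton]
      exact mul_self_eq_one_iff.mp this) (1 : K[X])
  rw [map_one, LinearMap.trace_one, Finset.sum_pair (by
    intro h
    have : (2 : K) = 0 := by linear_combination h
    exact two_ne_zero this)] at h1
  rw [mult_symm hω hsk] at h1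
  simp only [eval_one, one_mul] at h1
  have h2 : ((finrank K V : ℕ) : K) = ((2 * finrank K (s.eigenspace 1) : ℕ) : K) := by
    rw [h1]; push_cast; ring
  exact (Nat.cast_injective h2).symm

/-- The spectrum of a skew operator is symmetric. -/
lemma eigen_neg (hω : ω.Nondegenerate) {f : Module.End K V} (hf : MTP.IsSk ω f) {a : K}
    (h : f.eigenspace a ≠ ⊥) : f.eigenspace (-a) ≠ ⊥ := by
  intro h0
  apply h
  rw [← Submodule.finrank_eq_zero, ← mult_symm hω hf a, h0, finrank_bot]

/-- If a sum of two commuting parts is an involution, one of the parts vanishes. -/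
lemma Two.inv_split [IsAlgClosed K] [CharZero K] (h : Two I J) (hω : ω.Nondegenerate)
    (hI : ∀ a ∈ I, MTP.IsSk ω a) {x y : Module.End K V} (hx : x ∈ I) (hy : y ∈ J)
    (hs : (x + y) * (x + y) = 1) : x = 0 ∨ y = 0 := by
  obtain ⟨sx, sy⟩ := h.semisimple hx hy (semisimple_of_sq hs)
  by_cases hy0 : y = 0
  · exact Or.inr hy0
  left
  rw [Module.End.IsSemisimple.eq_zero_iff_forall_eigenvalue sx]
  intro a ha
  have hy1 : ∃ b, y.HasEigenvalue b ∧ b ≠ 0 := by
    by_contra hcon
    push Not at hcon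
    exact hy0 ((Module.End.IsSemisimple.eq_zero_iff_forall_eigenvalue sy).mpr hcon)
  obtain ⟨b, hb, hb0⟩ := hy1
  have ha' : x.eigenspace a ≠ ⊥ := ha
  have hb' : y.eigenspace b ≠ ⊥ := hb
  have key : ∀ a : K, x.eigenspace a ≠ ⊥ → (a + b) * (a + b) = 1 := by
    intro a ha
    have hj := h.joint hx hy ha hb'
    obtain ⟨v, hv, hv0⟩ := Submodule.exists_mem_ne_zero_of_ne_bot hj
    apply sq_eigen hs
    intro h0
    apply hv0
    have : v ∈ (x + y).eigenspace (a + b) := by
      rw [Submodule.mem_inf, Module.End.mem_eigenspace_iff, Module.End.mem_eigenspace_iff] at hv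
      rw [Module.End.mem_eigenspace_iff, LinearMap.add_apply, hv.1, hv.2, add_smul]
    rw [h0] at this
    exact (Submodule.mem_bot K).mp this
  have k1 := key a ha'
  have k2 := key (-a) (eigen_neg hω (hI x hx) ha')
  have k3 : 4 * (a * b) = 0 := by linear_combination k1 - k2
  rcases mul_eq_zero.mp k3 with h4 | h4
  · norm_num at h4
  · rcases mul_eq_zero.mp h4 with h5 | h5
    · exact h5
    · exact absurd h5 hb0

lemma Two.nonzero [CharZero K] [Nontrivial V] : (finrank K V : K) ≠ 0 := by
  rw [Nat.cast_ne_zero]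
  exact Module.finrank_pos.ne'

/-- The two parts are orthogonal for the trace form. -/
lemma Two.orth [IsAlgClosed K] [CharZero K] [Nontrivial V] (h : Two I J) (hω : ω.Nondegenerate)
    (hI : ∀ a ∈ I, MTP.IsSk ω a) {x y : Module.End K V} (hx : x ∈ I) (hy : y ∈ J)
    (sy : y.IsSemisimple) : LinearMap.trace K V (x * y) = 0 := by
  obtain ⟨Λ, hΛ⟩ := exists_finset y
  have c : x * y = y * x := h.comm x hx y hy
  have hst : ∀ b, ∀ v ∈ y.eigenspace b, x v ∈ y.eigenspace b := fun b =>
    eigenspace_stable c.symm b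
  have hst' : ∀ b, ∀ v ∈ y.eigenspace b, (x * y) v ∈ y.eigenspace b := by
    intro b v hv
    have h1 := Module.End.mem_eigenspace_iff.mp hv
    rw [Module.End.mul_apply, h1, map_smul]
    exact (y.eigenspace b).smul_mem _ (hst b v hv)
  rw [trace_sum sy.iSup_eigenspace_eq_top Λ (fun μ h => (hΛ μ).mp h) hst']
  apply Finset.sum_eq_zero
  intro b _
  have e : (x * y).restrict (hst' b) = b • x.restrict (hst b) := by
    ext ⟨v, hv⟩
    have h1 := Module.End.mem_eigenspace_iff.mp hv
    rw [LinearMap.coe_restrict_apply, Module.End.mul_apply, h1, map_smul]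
    rfl
  rw [e, map_smul]
  have h2 := h.trace_mul (Algebra.subset_adjoin hx) (M := y.eigenspace b)
    (fun a ha w hw => eigenspace_stable (h.comm a ha y hy).symm b w hw) (hst b)
  rw [MTP.trace_eq_zero_of_sk hω (hI x hx), mul_zero] at h2
  rcases mul_eq_zero.mp h2 with h3 | h3
  · exact absurd h3 Two.nonzero
  · rw [h3, smul_zero]

/-- The trace of the square of an element of one part with integral eigenvalues. -/
lemma Two.sq_four [IsAlgClosed K] [CharZero K] [Nontrivial V] (h : Two I J)
    (hω : ω.Nondegenerate) (hI : ∀ a ∈ I, MTP.IsSk ω a) (hJ : ∀ a ∈ J, MTP.IsSk ω a)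
    {y s : Module.End K V} (hy : y ∈ I) (sy : y.IsSemisimple)
    (hint : ∀ μ, y.eigenspace μ ≠ ⊥ → ∃ k : ℤ, (k : K) = μ) (hs : s ∈ J) (hss : s * s = 1) :
    ∃ t : ℤ, LinearMap.trace K V (y * y) = 4 * (t : K) := by
  classical
  set M := s.eigenspace 1 with hM
  have hMI : ∀ a ∈ I, ∀ w ∈ M, a w ∈ M := fun a ha w hw =>
    eigenspace_stable (h.comm a ha s hs).symm 1 w hw
  have hyM : ∀ w ∈ M, y w ∈ M := hMI y hy
  have hp := aeval_stable hyM (X ^ 2 - X : K[X])
  have h1 := h.trace_mul (Algebra.adjoin_mono (Set.singleton_subset_iff.mpr hy)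
    (aeval_mem_adjoin_singleton K y)) hMI hp
  have h2 : LinearMap.trace K V (aeval y (X ^ 2 - X : K[X])) = LinearMap.trace K V (y * y) := by
    rw [map_sub, map_pow, aeval_X, pow_two, map_sub, MTP.trace_eq_zero_of_sk hω (hI y hy), sub_zero]
  rw [h2] at h1
  have h3 : (aeval y (X ^ 2 - X : K[X])).restrict hp
      = aeval (y.restrict hyM) (X ^ 2 - X : K[X]) := by
    ext v
    simp [pow_two]
  rw [h3] at h1
  obtain ⟨Λ, hΛ⟩ := exists_finset (y.restrict hyM)
  rw [trace_aeval (restrict_diag sy hyM) Λ (fun μ h => (hΛ μ).mp h)] at h1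
  have hc : ∀ μ : K, ∃ t : ℤ, μ ∈ Λ → (X ^ 2 - X : K[X]).eval μ = 2 * (t : K) := by
    intro μ
    by_cases hμ : μ ∈ Λ
    · have hne := (hΛ μ).mpr hμ
      obtain ⟨v, hv, hv0⟩ := Submodule.exists_mem_ne_zero_of_ne_bot hne
      have hv' := Module.End.mem_eigenspace_iff.mp hv
      have : y.eigenspace μ ≠ ⊥ := by
        intro h0
        apply hv0
        have h4 : (v : V) ∈ y.eigenspace μ := by
          rw [Module.End.mem_eigenspace_iff]
          exact congrArg Subtype.val hv'
        rw [h0] at h4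
        exact Subtype.ext ((Submodule.mem_bot K).mp h4)
      obtain ⟨k, hk⟩ := hint μ this
      obtain ⟨c, hc⟩ := Int.even_mul_pred_self k
      refine ⟨c, fun _ => ?_⟩
      simp only [eval_sub, eval_pow, eval_X]
      rw [← hk]
      have : ((k * (k - 1) : ℤ) : K) = ((c + c : ℤ) : K) := by rw [hc]
      push_cast at this
      linear_combination this
    · exact ⟨0, fun h => absurd h hμ⟩
  choose t ht using hc
  refine ⟨∑ μ ∈ Λ, t μ * (finrank K (Module.End.eigenspace (y.restrict hyM) μ) : ℤ), ?_⟩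
  have hhalf : (finrank K V : K) = 2 * (finrank K M : K) := by
    rw [← half hω hss (hJ s hs)]; push_cast; rfl
  have hne : (finrank K M : K) ≠ 0 := by
    intro h0
    apply Two.nonzero (K := K) (V := V)
    rw [hhalf, h0, mul_zero]
  rw [hhalf] at h1
  have h5 : 2 * (∑ μ ∈ Λ, (X ^ 2 - X : K[X]).eval μ
      * (finrank K (Module.End.eigenspace (y.restrict hyM) μ) : K)) = LinearMap.trace K V (y * y) := by
    apply mul_left_cancel₀ hne
    linear_combination h1
  rw [← h5]
  push_cast
  rw [Finset.mul_sum, Finset.mul_sum]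
  apply Finset.sum_congr rfl
  intro μ hμ
  rw [ht μ hμ]
  ring

/-- **Two commuting parts.** The number of odd eigenvalues is divisible by four, or half of the
dimension. -/
theorem Two.main [IsAlgClosed K] [CharZero K] (h : Two I J) (hω : ω.Nondegenerate)
    (hI : ∀ a ∈ I, MTP.IsSk ω a) (hJ : ∀ a ∈ J, MTP.IsSk ω a) {s1 s2 y1 y2 : Module.End K V}
    (hs1 : s1 ∈ I) (hss1 : s1 * s1 = 1) (hs2 : s2 ∈ J) (hss2 : s2 * s2 = 1)
    (h1 : y1 ∈ I) (h2 : y2 ∈ J) (sy : (y1 + y2).IsSemisimple)
    (hint : ∀ μ, (y1 + y2).eigenspace μ ≠ ⊥ → ∃ k : ℤ, (k : K) = μ) :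
    4 ∣ nodd (y1 + y2) ∨ 2 * nodd (y1 + y2) = finrank K V := by
  classical
  rcases subsingleton_or_nontrivial V with hV | hV
  · left
    have : nodd (y1 + y2) = 0 := by
      unfold nodd
      exact finrank_zero_of_subsingleton
    rw [this]; exact dvd_zero 4
  obtain ⟨ss1, ss2⟩ := h.semisimple h1 h2 sy
  have hjoint : ∀ a b, y1.eigenspace a ≠ ⊥ → y2.eigenspace b ≠ ⊥ →
      (y1 + y2).eigenspace (a + b) ≠ ⊥ := by
    intro a b ha hb h0
    obtain ⟨v, hv, hv0⟩ := Submodule.exists_mem_ne_zero_of_ne_bot (h.joint h1 h2 ha hb)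
    apply hv0
    have : v ∈ (y1 + y2).eigenspace (a + b) := by
      rw [Submodule.mem_inf, Module.End.mem_eigenspace_iff, Module.End.mem_eigenspace_iff] at hv
      rw [Module.End.mem_eigenspace_iff, LinearMap.add_apply, hv.1, hv.2, add_smul]
    rw [h0] at this
    exact (Submodule.mem_bot K).mp this
  obtain ⟨a0, ha0⟩ := Module.End.exists_eigenvalue y1
  obtain ⟨b0, hb0⟩ := Module.End.exists_eigenvalue y2
  have ha0' : y1.eigenspace a0 ≠ ⊥ := ha0
  have hb0' : y2.eigenspace b0 ≠ ⊥ := hb0
  -- twice an eigenvalue is an integer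
  obtain ⟨u, hu⟩ := hint _ (hjoint a0 b0 ha0' hb0')
  obtain ⟨u', hu'⟩ := hint _ (hjoint (-a0) b0 (eigen_neg hω (hI y1 h1) ha0') hb0')
  have hl : ((u + u' : ℤ) : K) = 2 * b0 := by push_cast; rw [hu, hu']; ring
  have hA : ∀ a, y1.eigenspace a ≠ ⊥ → ∃ k : ℤ, 2 * a = 2 * (k : K) - ((u + u' : ℤ) : K) := by
    intro a ha
    obtain ⟨k, hk⟩ := hint _ (hjoint a b0 ha hb0')
    exact ⟨k, by rw [hk, hl]; ring⟩
  have hB : ∀ b, y2.eigenspace b ≠ ⊥ → ∃ k : ℤ, 2 * b = 2 * (k : K) + ((u + u' : ℤ) : K) := by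
    intro b hb
    obtain ⟨k, hk⟩ := hint _ (hjoint a0 b ha0' hb)
    obtain ⟨l, hl'⟩ := hA a0 ha0'
    exact ⟨k - l, by push_cast at hl' ⊢; linear_combination (2 : K) * (-hk) - hl'⟩
  rcases Int.even_or_odd (u + u') with he | ho
  · -- integral eigenvalues
    left
    obtain ⟨c, hc⟩ := he
    have hZ1 : ∀ a, y1.eigenspace a ≠ ⊥ → ∃ k : ℤ, (k : K) = a := by
      intro a ha
      obtain ⟨k, hk⟩ := hA a ha
      refine ⟨k - c, ?_⟩
      rw [hc] at hk
      push_cast at hk ⊢
      apply mul_left_cancel₀ (two_ne_zero (α := K))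
      linear_combination -hk
    have hZ2 : ∀ b, y2.eigenspace b ≠ ⊥ → ∃ k : ℤ, (k : K) = b := by
      intro b hb
      obtain ⟨k, hk⟩ := hB b hb
      refine ⟨k + c, ?_⟩
      rw [hc] at hk
      push_cast at hk ⊢
      apply mul_left_cancel₀ (two_ne_zero (α := K))
      linear_combination -hk
    obtain ⟨t1, ht1⟩ := h.sq_four hω hI hJ h1 ss1 hZ1 hs2 hss2
    obtain ⟨t2, ht2⟩ := h.symm.sq_four hω hJ hI h2 ss2 hZ2 hs1 hss1
    obtain ⟨t, ht⟩ := trace_sq sy.iSup_eigenspace_eq_top hint
    have ho := h.orth hω hI h1 h2 ss2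
    have ho' : LinearMap.trace K V (y2 * y1) = 0 := by rw [← h.comm y1 h1 y2 h2]; exact ho
    have e : (y1 + y2) * (y1 + y2) = y1 * y1 + y1 * y2 + y2 * y1 + y2 * y2 := by noncomm_ring
    rw [e, map_add, map_add, map_add, ho, ho', ht1, ht2] at ht
    have h3 : ((nodd (y1 + y2) : ℤ) + 4 * t) = 4 * t1 + 4 * t2 := by
      have : (((nodd (y1 + y2) : ℤ) + 4 * t : ℤ) : K) = ((4 * t1 + 4 * t2 : ℤ) : K) := by
        rw [← ht]; push_cast; ring
      exact Int.cast_injective this
    omega
  · -- half integral eigenvalues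
    right
    obtain ⟨c, hc⟩ := ho
    have hH1 : ∀ a, y1.eigenspace a ≠ ⊥ → ∃ k : ℤ, 2 * a = 2 * (k : K) + 1 := by
      intro a ha
      obtain ⟨k, hk⟩ := hA a ha
      refine ⟨k - c - 1, ?_⟩
      rw [hc] at hk
      push_cast at hk ⊢
      linear_combination hk
    have hH2 : ∀ b, y2.eigenspace b ≠ ⊥ → ∃ k : ℤ, 2 * b = 2 * (k : K) + 1 := by
      intro b hb
      obtain ⟨k, hk⟩ := hB b hb
      refine ⟨k + c, ?_⟩
      rw [hc] at hk
      push_cast at hk ⊢
      linear_combination hk
    have hκ : ∀ a : K, ∃ k : ℤ, (∃ k : ℤ, 2 * a = 2 * (k : K) + 1) → 2 * a = 2 * (k : K) + 1 := by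
      intro a
      by_cases ha : ∃ k : ℤ, 2 * a = 2 * (k : K) + 1
      · obtain ⟨k, hk⟩ := ha
        exact ⟨k, fun _ => hk⟩
      · exact ⟨0, fun h => absurd h ha⟩
    choose κ hκ using hκ
    let e : K → K := fun a => if Even (κ a) then 1 else -1
    have hneg : ∀ a, (∃ k : ℤ, 2 * a = 2 * (k : K) + 1) → e (-a) = - e a := by
      intro a ha
      have h3 := hκ a ha
      have h4 := hκ (-a) ⟨-κ a - 1, by push_cast; linear_combination -h3⟩
      have h5 : κ (-a) = -κ a - 1 := by
        have : ((κ (-a) : ℤ) : K) = ((-κ a - 1 : ℤ) : K) := by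
          push_cast
          apply mul_left_cancel₀ (two_ne_zero (α := K))
          linear_combination -h3 - h4
        exact Int.cast_injective this
      simp only [e]
      rw [h5]
      by_cases hE : Even (κ a)
      · have : ¬ Even (-κ a - 1) := by
          obtain ⟨m, hm⟩ := hE
          rw [Int.not_even_iff_odd]
          exact ⟨-m - 1, by omega⟩
        rw [if_pos hE, if_neg this]
      · have : Even (-κ a - 1) := by
          rw [Int.not_even_iff_odd] at hE
          obtain ⟨m, hm⟩ := hE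
          exact ⟨-m - 1, by omega⟩
        rw [if_neg hE, if_pos this]; ring
    obtain ⟨Λ1, hΛ1⟩ := exists_finset y1
    obtain ⟨Λ2, hΛ2⟩ := exists_finset y2
    obtain ⟨Λ, hΛ⟩ := exists_finset (y1 + y2)
    have hsum : ∑ a ∈ Λ1, e a * (finrank K (y1.eigenspace a) : K) = 0 := by
      have h3 : ∑ a ∈ Λ1, e a * (finrank K (y1.eigenspace a) : K)
          = ∑ a ∈ Λ1, -(e a * (finrank K (y1.eigenspace a) : K)) := by
        apply Finset.sum_nbij' (fun a => -a) (fun a => -a)
        · intro a ha
          exact (hΛ1 _).mp (eigen_neg hω (hI y1 h1) ((hΛ1 a).mpr ha))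
        · intro a ha
          exact (hΛ1 _).mp (eigen_neg hω (hI y1 h1) ((hΛ1 a).mpr ha))
        · intro a _; ring
        · intro a _; ring
        · intro a ha
          rw [hneg a (hH1 a ((hΛ1 a).mpr ha)), mult_symm hω (hI y1 h1)]
          ring
      rw [Finset.sum_neg_distrib] at h3
      exact self_eq_neg.mp h3
    set p : K[X] := Lagrange.interpolate Λ id (fun μ => if OddK μ then (1 : K) else -1) with hp
    have hev : ∀ μ ∈ Λ, p.eval μ = if OddK μ then (1 : K) else -1 := by
      intro μ hμ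
      exact Lagrange.eval_interpolate_at_node (s := Λ) (v := (id : K → K))
        (r := fun μ => if OddK μ then (1 : K) else -1) (Function.injective_id.injOn) hμ
    have hTF := h.trace_formula h1 h2 ss1 ss2 Λ1 Λ2 (fun μ h => (hΛ1 μ).mp h)
      (fun μ h => (hΛ2 μ).mp h) p
    have hR : ∑ b ∈ Λ2, ∑ a ∈ Λ1, p.eval (a + b) * (finrank K (y1.eigenspace a) : K)
          * (finrank K (y2.eigenspace b) : K) = 0 := by
      apply Finset.sum_eq_zero
      intro b hb
      have h3 : ∀ a ∈ Λ1, p.eval (a + b) * (finrank K (y1.eigenspace a) : K)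
          * (finrank K (y2.eigenspace b) : K)
          = (e a * (finrank K (y1.eigenspace a) : K)) * (e b * (finrank K (y2.eigenspace b) : K)) := by
        intro a ha
        have h4 : p.eval (a + b) = e a * e b := by
          rw [hev _ ((hΛ _).mp (hjoint a b ((hΛ1 a).mpr ha) ((hΛ2 b).mpr hb)))]
          have h5 := hκ a (hH1 a ((hΛ1 a).mpr ha))
          have h6 := hκ b (hH2 b ((hΛ2 b).mpr hb))
          have h7 : ((κ a + κ b + 1 : ℤ) : K) = a + b := by
            push_cast
            apply mul_left_cancel₀ (two_ne_zero (α := K))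
            linear_combination -h5 - h6
          simp only [e]
          by_cases hEa : Even (κ a) <;> by_cases hEb : Even (κ b)
          · rw [if_pos ⟨κ a + κ b + 1, (hEa.add hEb).add_one, h7⟩, if_pos hEa, if_pos hEb, one_mul]
          · have : ¬ OddK (a + b) := by
              rintro ⟨k, hk1, hk2⟩
              rw [← h7, Int.cast_inj] at hk2
              rw [Int.not_even_iff_odd] at hEb
              rw [hk2] at hk1
              exact (Int.not_odd_iff_even.mpr ((hEa.add_odd hEb).add_one)) hk1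
            rw [if_neg this, if_pos hEa, if_neg hEb]; ring
          · have : ¬ OddK (a + b) := by
              rintro ⟨k, hk1, hk2⟩
              rw [← h7, Int.cast_inj] at hk2
              rw [Int.not_even_iff_odd] at hEa
              rw [hk2] at hk1
              exact (Int.not_odd_iff_even.mpr ((hEa.add_even hEb).add_one)) hk1
            rw [if_neg this, if_neg hEa, if_pos hEb]; ring
          · rw [Int.not_even_iff_odd] at hEa hEb
            rw [if_pos ⟨κ a + κ b + 1, (hEa.add_odd hEb).add_one, h7⟩,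
              if_neg (Int.not_even_iff_odd.mpr hEa), if_neg (Int.not_even_iff_odd.mpr hEb)]
            ring
        rw [h4]; ring
      rw [Finset.sum_congr rfl h3, ← Finset.sum_mul, hsum, zero_mul]
    rw [hR] at hTF
    have hT0 : LinearMap.trace K V (aeval (y1 + y2) p) = 0 := by
      rcases mul_eq_zero.mp hTF with h3 | h3
      · exact absurd h3 Two.nonzero
      · exact h3
    rw [trace_aeval sy.iSup_eigenspace_eq_top Λ (fun μ h => (hΛ μ).mp h)] at hT0
    have hN := nodd_cast sy.iSup_eigenspace_eq_top Λ (fun μ h => (hΛ μ).mp h)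
    have hO := trace_aeval sy.iSup_eigenspace_eq_top Λ (fun μ h => (hΛ μ).mp h) (1 : K[X])
    rw [map_one, LinearMap.trace_one] at hO
    have hfin : (2 : K) * (nodd (y1 + y2) : K) - (finrank K V : K)
        = ∑ μ ∈ Λ, p.eval μ * (finrank K ((y1 + y2).eigenspace μ) : K) := by
      rw [hN, hO, Finset.mul_sum, ← Finset.sum_sub_distrib]
      apply Finset.sum_congr rfl
      intro μ hμ
      rw [hev μ hμ, eval_one]
      split_ifs <;> ring
    rw [hT0] at hfin
    have : ((2 * nodd (y1 + y2) : ℕ) : K) = ((finrank K V : ℕ) : K) := by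
      push_cast
      linear_combination hfin
    exact Nat.cast_injective this

end Pool.Agent.Helper54.MT
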