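import Pool.Agent.Helper54.MT.Roots

/-!
# Parity of the number of roots pairing to one with a small weight
-/

namespace Pool.Agent.Helper54.MT

open RootPairing

variable {ι K M N : Type*} [Field K] [CharZero K] [AddCommGroup M] [Module K M]
  [AddCommGroup N] [Module K N] {P : RootPairing ι K M N} [Fintype ι] [P.IsCrystallographic]

theorem rs_neg (A : Finset ι) (x : M) : rs P A (-x) = -rs P A x := by
  simp only [rs, map_neg, neg_smul, Finset.sum_neg_distrib]
  abel

theorem rs_root_mem {A : Finset ι} (hA : Orth P A) (i : ι) :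
    ∃ k, P.root k = -rs P A (P.root i) := by
  have h : rs P A (P.root i) ∈ Set.range P.root := by
    refine rs_induction hA (fun y => y ∈ Set.range P.root) ?_ ⟨i, rfl⟩
    rintro j y ⟨k, rfl⟩
    exact ⟨P.reflectionPerm j k, P.root_reflectionPerm j k⟩
  obtain ⟨k, hk⟩ := h
  refine ⟨P.reflectionPerm k k, ?_⟩
  rw [P.root_reflectionPerm, reflection_apply_self, hk]

theorem rs_root_of_mem {A : Finset ι} (hA : Orth P A) {i : ι} (hi : i ∈ A) :
    rs P A (P.root i) = -P.root i := by
  rw [rs, Finset.sum_eq_single i]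
  · rw [pair_cast, pair_self]
    push_cast
    rw [two_smul]
    abel
  · intro j hj hji
    rw [pair_cast, hA i hi j hj (Ne.symm hji)]
    simp
  · intro h; exact absurd hi h

theorem fixed_mem [P.IsReduced] {A : Finset ι} {x : M} (hx : Small P x)
    (hA1 : ∀ i ∈ A, P.coroot' i x = 1)
    (hA3 : ∀ i ∈ A, ∀ j ∈ A, i ≠ j → P.root i + P.root j ∉ Set.range P.root) {i : ι}
    (hi : P.coroot' i x = 1) (hfix : rs P A (P.root i) = -P.root i) : i ∈ A := by
  classical
  by_contra hiA
  have hsum : ∑ j ∈ A, (P.pairingIn ℤ i j : K) • P.root j = P.root i + P.root i := by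
    rw [rs] at hfix
    have h : ∑ j ∈ A, P.coroot' j (P.root i) • P.root j =
        P.root i - (P.root i - ∑ j ∈ A, P.coroot' j (P.root i) • P.root j) := by abel
    rw [hfix] at h
    simp only [pair_cast] at h
    rw [h]
    abel
  have hne : ∀ j ∈ A, i ≠ j := by
    rintro j hj rfl
    exact hiA hj
  have hnn : ∀ j ∈ A, 0 ≤ P.pairingIn ℤ i j := fun j hj => hx.pair_nonneg hi (hA1 j hj)
  have hle : ∀ j ∈ A, P.pairingIn ℤ i j ≤ 2 := fun j hj => hx.pair_le_two hi (hA1 j hj) (hne j hj)
  have e1 : 2 * len P i = ∑ j ∈ A, P.pairingIn ℤ i j * len P j := by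
    have h := congrArg (fun y => 2 * fm P x y) hsum
    simp only [map_sum, map_smul, smul_eq_mul, map_add] at h
    rw [mul_add, fm_root, hi, Finset.mul_sum] at h
    have h' : ∑ j ∈ A, 2 * ((P.pairingIn ℤ i j : K) * fm P x (P.root j)) =
        ∑ j ∈ A, (P.pairingIn ℤ i j : K) * (len P j : K) := by
      refine Finset.sum_congr rfl fun j hj => ?_
      have := fm_root P x j
      rw [hA1 j hj] at this
      linear_combination (P.pairingIn ℤ i j : K) * this
    rw [h'] at h
    have h2 : (((∑ j ∈ A, P.pairingIn ℤ i j * len P j : ℤ)) : K) = ((2 * len P i : ℤ) : K) := by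
      push_cast
      rw [h]
      ring
    exact_mod_cast h2.symm
  have e2 : 4 * len P i = ∑ j ∈ A, P.pairingIn ℤ i j * P.pairingIn ℤ i j * len P j := by
    have h := congrArg (fun y => 2 * fm P (P.root i) y) hsum
    simp only [map_sum, map_smul, smul_eq_mul, map_add] at h
    rw [mul_add, fm_self, Finset.mul_sum] at h
    have h' : ∑ j ∈ A, 2 * ((P.pairingIn ℤ i j : K) * fm P (P.root i) (P.root j)) =
        ∑ j ∈ A, (P.pairingIn ℤ i j : K) * (P.pairingIn ℤ i j : K) * (len P j : K) := by
      refine Finset.sum_congr rfl fun j hj => ?_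
      have := fm_root_root P i j
      linear_combination (P.pairingIn ℤ i j : K) * this
    rw [h'] at h
    have h2 : (((∑ j ∈ A, P.pairingIn ℤ i j * P.pairingIn ℤ i j * len P j : ℤ)) : K) =
        ((4 * len P i : ℤ) : K) := by
      push_cast
      rw [h]
      ring
    exact_mod_cast h2.symm
  have e3 : ∑ j ∈ A, (2 * P.pairingIn ℤ i j - P.pairingIn ℤ i j * P.pairingIn ℤ i j) * len P j
      = 0 := by
    have : ∀ j, (2 * P.pairingIn ℤ i j - P.pairingIn ℤ i j * P.pairingIn ℤ i j) * len P j =
        2 * (P.pairingIn ℤ i j * len P j) - P.pairingIn ℤ i j * P.pairingIn ℤ i j * len P j := by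
      intro j; ring
    simp only [this]
    rw [Finset.sum_sub_distrib, ← Finset.mul_sum, ← e1, ← e2]
    ring
  have hval : ∀ j ∈ A, P.pairingIn ℤ i j = 0 ∨ P.pairingIn ℤ i j = 2 := by
    have h := (Finset.sum_eq_zero_iff_of_nonneg (fun j hj => ?_)).mp e3
    · intro j hj
      have h1 := h j hj
      rcases mul_eq_zero.mp h1 with h2 | h2
      · have h3 : P.pairingIn ℤ i j * (2 - P.pairingIn ℤ i j) = 0 := by linarith
        rcases mul_eq_zero.mp h3 with h4 | h4
        · exact Or.inl h4
        · right; omega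
      · exact absurd h2 (len_pos P j).ne'
    · apply mul_nonneg
      · have h1 := hnn j hj
        have h2 := hle j hj
        have : (2 * P.pairingIn ℤ i j - P.pairingIn ℤ i j * P.pairingIn ℤ i j) =
          P.pairingIn ℤ i j * (2 - P.pairingIn ℤ i j) := by ring
        rw [this]
        exact mul_nonneg h1 (by omega)
      · exact (len_pos P j).le
  set J := A.filter fun j => P.pairingIn ℤ i j = 2 with hJ
  have hlen : ∀ j ∈ J, len P i = 2 * len P j := by
    intro j hj
    obtain ⟨hjA, hj2⟩ := Finset.mem_filter.mp hj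
    have h1 := P.pairingIn_pairingIn_mem_set_of_isCrystal_of_isRed i j
    rw [hj2] at h1
    have h2 : P.pairingIn ℤ j i = 1 ∨ P.pairingIn ℤ j i = 2 := by
      simp only [Set.mem_insert_iff, Prod.mk.injEq, Set.mem_singleton_iff] at h1
      omega
    have h3 := pair_len P i j
    rw [hj2] at h3
    rcases h2 with h2 | h2
    · rw [h2, one_mul] at h3
      exact h3.symm
    · exfalso
      apply hne j hjA
      exact (P.pairingIn_two_two_iff ℤ i j).mp ⟨hj2, h2⟩
  have hsumJ : ∑ j ∈ A, P.pairingIn ℤ i j * len P j = ∑ j ∈ J, len P i := by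
    rw [hJ, Finset.sum_filter]
    refine Finset.sum_congr rfl fun j hj => ?_
    split_ifs with h
    · rw [h, ← hlen j (Finset.mem_filter.mpr ⟨hj, h⟩)]
    · rcases hval j hj with h' | h'
      · rw [h', zero_mul]
      · exact absurd h' h
  rw [hsumJ, Finset.sum_const, nsmul_eq_mul] at e1
  have hcard : J.card = 2 := by
    have h1 := len_pos P i
    have h2 : (2 - (J.card : ℤ)) * len P i = 0 := by linarith
    rcases mul_eq_zero.mp h2 with h3 | h3
    · omega
    · omega
  obtain ⟨j, k, hjk, hJ2⟩ := Finset.card_eq_two.mp hcard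
  have hj : j ∈ A := (Finset.mem_filter.mp (by rw [← hJ, hJ2]; simp : j ∈ A.filter _)).1
  have hk : k ∈ A := (Finset.mem_filter.mp (by rw [← hJ, hJ2]; simp : k ∈ A.filter _)).1
  apply hA3 j hj k hk hjk
  refine ⟨i, ?_⟩
  have hs : ∑ j ∈ A, (P.pairingIn ℤ i j : K) • P.root j = ∑ j ∈ J, (2 : K) • P.root j := by
    rw [hJ, Finset.sum_filter]
    refine Finset.sum_congr rfl fun j hj => ?_
    split_ifs with h
    · rw [h]; simp
    · rcases hval j hj with h' | h'
      · rw [h']; simp
      · exact absurd h' h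
  rw [hs, hJ2, Finset.sum_pair hjk] at hsum
  have h2 : (2 : K) ≠ 0 := two_ne_zero
  have h3 : (2 : K) • P.root i = (2 : K) • (P.root j + P.root k) := by
    rw [smul_add, hsum, two_smul]
  exact (smul_right_injective M h2) h3

theorem card_parity [P.IsReduced] {A : Finset ι} {x : M} (hx : Small P x)
    (hA1 : ∀ i ∈ A, P.coroot' i x = 1) (hA2 : Orth P A) (hA : ∑ i ∈ A, P.root i = x + x)
    (hA3 : ∀ i ∈ A, ∀ j ∈ A, i ≠ j → P.root i + P.root j ∉ Set.range P.root)
    (S : Finset ι) (hS : ∀ i, i ∈ S ↔ P.coroot' i x = 1) :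
    (S.card : ZMod 2) = (A.card : ZMod 2) := by
  classical
  choose θ hθ using rs_root_mem hA2
  have hinv : ∀ i, θ (θ i) = i := by
    intro i
    apply P.root.injective
    rw [hθ, hθ, rs_neg, rs_rs hA2, neg_neg]
  have hxx : rs P A x = -x := by
    rw [sum_ones hA1, hA]; abel
  have hlen : ∀ i, len P (θ i) = len P i := by
    intro i
    have h : (len P (θ i) : K) = (len P i : K) := by
      rw [← fm_self, ← fm_self, hθ, map_neg, map_neg, LinearMap.neg_apply, neg_neg, fm_rs hA2]
    exact_mod_cast h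
  have hone : ∀ i, P.coroot' i x = 1 → P.coroot' (θ i) x = 1 := by
    intro i hi
    have h1 := fm_root P x (θ i)
    have h2 : fm P x (P.root (θ i)) = fm P x (P.root i) := by
      rw [hθ, map_neg, ← fm_rs hA2 x (rs P A (P.root i)), rs_rs hA2, hxx, map_neg,
        LinearMap.neg_apply, neg_neg]
    rw [h2, fm_root, hi, hlen] at h1
    have h3 : (len P i : K) ≠ 0 := by exact_mod_cast (len_pos P i).ne'
    have h4 : (P.coroot' (θ i) x - 1) * (len P i : K) = 0 := by linear_combination -h1
    rcases mul_eq_zero.mp h4 with h5 | h5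
    · linear_combination h5
    · exact absurd h5 h3
  have hfix : ∀ i ∈ A, θ i = i := by
    intro i hi
    apply P.root.injective
    rw [hθ, rs_root_of_mem hA2 hi, neg_neg]
  have hAS : A ⊆ S := fun i hi => (hS i).mpr (hA1 i hi)
  have hsplit : S.card = A.card + (S \ A).card := by
    rw [Finset.card_sdiff_of_subset hAS]
    have := Finset.card_le_card hAS
    omega
  have hzero : (((S \ A).card : ℕ) : ZMod 2) = 0 := by
    rw [Finset.card_eq_sum_ones]
    push_cast
    refine Finset.sum_involution (fun i _ => θ i) ?_ ?_ ?_ ?_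
    · intro i _; decide
    · intro i hi _ h
      obtain ⟨hi1, hi2⟩ := Finset.mem_sdiff.mp hi
      apply hi2
      refine fixed_mem hx hA1 hA3 ((hS i).mp hi1) ?_
      have := hθ i
      rw [h] at this
      exact (neg_eq_iff_eq_neg.mpr this).symm
    · intro i hi
      obtain ⟨hi1, hi2⟩ := Finset.mem_sdiff.mp hi
      refine Finset.mem_sdiff.mpr ⟨(hS _).mpr (hone i ((hS i).mp hi1)), fun h => ?_⟩
      have := hfix _ h
      rw [hinv] at this
      rw [← this] at h
      exact hi2 h
    · intro i _; exact hinv i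
  rw [hsplit]
  push_cast
  rw [hzero, add_zero]

end Pool.Agent.Helper54.MT
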