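import Pool.Agent.Helper54.MT.NonSimple

/-!
The number of odd eigenvalues of an operator with integral eigenvalues.
-/

open Module Polynomial

namespace Pool.Agent.Helper54.MT

variable {K : Type*} [Field K] {V : Type*} [AddCommGroup V] [Module K V]

/-- An element of the field which is an odd integer. -/
def OddK (μ : K) : Prop := ∃ k : ℤ, Odd k ∧ (k : K) = μ

/-- The sum of the eigenspaces for the odd integers. -/
noncomputable def oddPart (y : Module.End K V) : Submodule K V :=
  ⨆ k : {k : ℤ // Odd k}, y.eigenspace ((k : ℤ) : K)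

/-- The number of odd eigenvalues, counted with multiplicity. -/
noncomputable def nodd (y : Module.End K V) : ℕ := finrank K (oddPart y)

variable [FiniteDimensional K V]

open Classical in
lemma nodd_cast [CharZero K] {y : Module.End K V} (hy : ⨆ μ, y.eigenspace μ = ⊤) (Λ : Finset K)
    (hΛ : ∀ μ, y.eigenspace μ ≠ ⊥ → μ ∈ Λ) :
    (nodd y : K) = ∑ μ ∈ Λ, (if OddK μ then 1 else 0) * (finrank K (y.eigenspace μ) : K) := by
  set p : K[X] := Lagrange.interpolate Λ id (fun μ => if OddK μ then (1 : K) else 0) with hp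
  have hev : ∀ μ ∈ Λ, p.eval μ = if OddK μ then (1 : K) else 0 := by
    intro μ hμ
    have := Lagrange.eval_interpolate_at_node (s := Λ) (v := (id : K → K))
      (r := fun μ => if OddK μ then (1 : K) else 0) (Function.injective_id.injOn) hμ
    exact this
  have hone : ∀ x ∈ oddPart y, aeval y p x = x := by
    intro x hx
    unfold oddPart at hx
    induction hx using Submodule.iSup_induction' with
    | mem k x hx =>
      by_cases hx0 : x = 0
      · rw [hx0, map_zero]
      · have hm : ((k : ℤ) : K) ∈ Λ := by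
          apply hΛ
          intro h0
          rw [h0] at hx
          exact hx0 ((Submodule.mem_bot K).mp hx)
        rw [aeval_eigen hx, hev _ hm, if_pos ⟨k, k.2, rfl⟩, one_smul]
    | zero => rw [map_zero]
    | add x z _ _ hx hz => rw [map_add, hx, hz]
  have hmem : ∀ x, aeval y p x ∈ oddPart y := by
    intro x
    have hx : x ∈ ⨆ μ, y.eigenspace μ := by rw [hy]; trivial
    induction hx using Submodule.iSup_induction' with
    | mem μ x hx =>
      by_cases hx0 : x = 0
      · rw [hx0, map_zero]; exact zero_mem _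
      · have hm : μ ∈ Λ := by
          apply hΛ
          intro h0
          rw [h0] at hx
          exact hx0 ((Submodule.mem_bot K).mp hx)
        rw [aeval_eigen hx, hev _ hm]
        split_ifs with ho
        · obtain ⟨k, hk, rfl⟩ := ho
          apply (oddPart y).smul_mem
          exact Submodule.mem_iSup_of_mem (p := fun k : {k : ℤ // Odd k} =>
            y.eigenspace ((k : ℤ) : K)) ⟨k, hk⟩ hx
        · rw [zero_smul]; exact zero_mem _
    | zero => rw [map_zero]; exact zero_mem _
    | add x z _ _ hx hz => rw [map_add]; exact add_mem hx hz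
  have hproj : LinearMap.IsProj (oddPart y) (aeval y p) := ⟨hmem, hone⟩
  have ht := hproj.trace
  rw [trace_aeval hy Λ hΛ] at ht
  unfold nodd
  rw [← ht]
  apply Finset.sum_congr rfl
  intro μ hμ
  rw [hev μ hμ]

/-- The trace of the square determines the number of odd eigenvalues modulo four. -/
lemma trace_sq [CharZero K] {y : Module.End K V} (hy : ⨆ μ, y.eigenspace μ = ⊤)
    (hint : ∀ μ, y.eigenspace μ ≠ ⊥ → ∃ k : ℤ, (k : K) = μ) :
    ∃ t : ℤ, LinearMap.trace K V (y * y) = ((nodd y : ℤ) + 4 * t : ℤ) := by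
  classical
  obtain ⟨Λ, hΛ⟩ := exists_finset y
  have hc : ∀ μ : K, ∃ k : ℤ, μ ∈ Λ → (k : K) = μ := by
    intro μ
    by_cases hμ : μ ∈ Λ
    · obtain ⟨k, hk⟩ := hint μ ((hΛ μ).mpr hμ)
      exact ⟨k, fun _ => hk⟩
    · exact ⟨0, fun h => absurd h hμ⟩
  choose κ hκ using hc
  have h1 := trace_aeval hy Λ (fun μ h => (hΛ μ).mp h) (X ^ 2)
  have h2 := nodd_cast hy Λ (fun μ h => (hΛ μ).mp h)
  have h3 : ∀ μ : K, ∃ t : ℤ, μ ∈ Λ → μ ^ 2 = ((if OddK μ then (1 : K) else 0) + 4 * (t : K)) := by
    intro μ
    by_cases hμ : μ ∈ Λ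
    · have hk := hκ μ hμ
      rcases Int.even_or_odd (κ μ) with he | ho
      · have hno : ¬ OddK μ := by
          rintro ⟨k, hk1, hk2⟩
          rw [← hk, Int.cast_inj] at hk2
          rw [hk2] at hk1
          exact (Int.not_odd_iff_even.mpr he) hk1
        obtain ⟨c, hc⟩ := he
        refine ⟨c * c, fun _ => ?_⟩
        rw [if_neg hno, ← hk, hc]
        push_cast; ring
      · obtain ⟨c, hc⟩ := ho
        refine ⟨c * c + c, fun _ => ?_⟩
        rw [if_pos ⟨κ μ, ⟨c, hc⟩, hk⟩]
        conv_lhs => rw [← hk]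
        rw [hc]
        push_cast; ring
    · exact ⟨0, fun h => absurd h hμ⟩
  choose t ht using h3
  refine ⟨∑ μ ∈ Λ, t μ * (finrank K (y.eigenspace μ) : ℤ), ?_⟩
  have h4 : aeval y (X ^ 2 : K[X]) = y * y := by rw [map_pow, aeval_X, pow_two]
  rw [← h4, h1]
  push_cast
  rw [h2, Finset.mul_sum, ← Finset.sum_add_distrib]
  apply Finset.sum_congr rfl
  intro μ hμ
  rw [eval_pow, eval_X, ht μ hμ]
  ring

end Pool.Agent.Helper54.MT
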