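import Mathlib

/-!
Traces of polynomials of diagonalizable operators.
-/

open Module Polynomial

namespace Pool.Agent.Helper54.MT

variable {K : Type*} [Field K] {V : Type*} [AddCommGroup V] [Module K V]

lemma aeval_eq_on {f g : Module.End K V} {M : Submodule K V} (hM : ∀ v ∈ M, f v ∈ M)
    (h : ∀ v ∈ M, f v = g v) (p : K[X]) : ∀ v ∈ M, aeval f p v = aeval g p v := by
  induction p using Polynomial.induction_on' with
  | add p q hp hq =>
    intro v hv
    rw [map_add, map_add, LinearMap.add_apply, LinearMap.add_apply, hp v hv, hq v hv]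
  | monomial n a =>
    have h1 : ∀ n : ℕ, ∀ v ∈ M, (f ^ n) v = (g ^ n) v ∧ (f ^ n) v ∈ M := by
      intro n
      induction n with
      | zero => intro v hv; exact ⟨rfl, hv⟩
      | succ n ih =>
        intro v hv
        obtain ⟨e, m⟩ := ih v hv
        rw [pow_succ', pow_succ', Module.End.mul_apply, Module.End.mul_apply, ← e]
        exact ⟨h _ m, hM _ m⟩
    intro v hv
    rw [aeval_monomial, aeval_monomial, Module.End.mul_apply, Module.End.mul_apply,
      (h1 n v hv).1]

lemma aeval_stable {f : Module.End K V} {M : Submodule K V} (hM : ∀ v ∈ M, f v ∈ M) (p : K[X]) :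
    ∀ v ∈ M, aeval f p v ∈ M := by
  induction p using Polynomial.induction_on' with
  | add p q hp hq =>
    intro v hv
    rw [map_add, LinearMap.add_apply]
    exact M.add_mem (hp v hv) (hq v hv)
  | monomial n a =>
    have h1 : ∀ n : ℕ, ∀ v ∈ M, (f ^ n) v ∈ M := by
      intro n
      induction n with
      | zero => intro v hv; exact hv
      | succ n ih =>
        intro v hv
        rw [pow_succ', Module.End.mul_apply]
        exact hM _ (ih v hv)
    intro v hv
    rw [aeval_monomial, Module.End.mul_apply]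
    exact M.smul_mem a (h1 n v hv)

lemma aeval_eigen {f : Module.End K V} {μ : K} {v : V} (hv : v ∈ f.eigenspace μ) (p : K[X]) :
    aeval f p v = p.eval μ • v := by
  have h := aeval_eq_on (f := f) (g := algebraMap K _ μ) (M := f.eigenspace μ)
    (fun v hv => by
      rw [Module.End.mem_eigenspace_iff] at hv
      rw [hv]
      exact (f.eigenspace μ).smul_mem _ (Module.End.mem_eigenspace_iff.mpr hv))
    (fun v hv => by
      rw [Module.End.mem_eigenspace_iff] at hv
      rw [hv]; rfl) p v hv
  rw [h, aeval_algebraMap_apply]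
  rfl

variable [FiniteDimensional K V]

/-- The trace of an operator is the sum of its traces on the eigenspaces of a diagonalizable
operator commuting with it. -/
lemma trace_sum {f T : Module.End K V} (hf : ⨆ μ, f.eigenspace μ = ⊤) (Λ : Finset K)
    (hΛ : ∀ μ, f.eigenspace μ ≠ ⊥ → μ ∈ Λ) (hT : ∀ μ, ∀ v ∈ f.eigenspace μ, T v ∈ f.eigenspace μ) :
    LinearMap.trace K V T
      = ∑ μ ∈ Λ, LinearMap.trace K (f.eigenspace μ) (T.restrict (hT μ)) := by
  classical
  have hint : DirectSum.IsInternal f.eigenspace :=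
    DirectSum.isInternal_submodule_of_iSupIndep_of_iSup_eq_top f.eigenspaces_iSupIndep hf
  have hfin : {μ | f.eigenspace μ ≠ ⊥}.Finite := Set.Finite.subset Λ.finite_toSet (fun μ h => hΛ μ h)
  rw [LinearMap.trace_eq_sum_trace_restrict' hint hfin hT]
  apply Finset.sum_subset
  · intro μ hμ
    rw [Set.Finite.mem_toFinset] at hμ
    exact hΛ μ hμ
  · intro μ _ hμ
    rw [Set.Finite.mem_toFinset, Set.mem_ofPred_eq, not_not] at hμ
    have : Subsingleton (f.eigenspace μ) := by rw [hμ]; infer_instance
    rw [Subsingleton.elim (LinearMap.restrict T (hT μ)) 0, map_zero]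

omit [FiniteDimensional K V] in
lemma eigen_stable {f : Module.End K V} (p : K[X]) (μ : K) :
    ∀ v ∈ f.eigenspace μ, aeval f p v ∈ f.eigenspace μ := by
  intro v hv
  rw [aeval_eigen hv]
  exact (f.eigenspace μ).smul_mem _ hv

/-- The trace of a polynomial of a diagonalizable operator. -/
lemma trace_aeval {f : Module.End K V} (hf : ⨆ μ, f.eigenspace μ = ⊤) (Λ : Finset K)
    (hΛ : ∀ μ, f.eigenspace μ ≠ ⊥ → μ ∈ Λ) (p : K[X]) :
    LinearMap.trace K V (aeval f p) = ∑ μ ∈ Λ, p.eval μ * finrank K (f.eigenspace μ) := by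
  rw [trace_sum hf Λ hΛ (eigen_stable p)]
  apply Finset.sum_congr rfl
  intro μ _
  have : (aeval f p).restrict (eigen_stable p μ) = p.eval μ • (1 : Module.End K (f.eigenspace μ)) := by
    ext v
    simp [LinearMap.restrict_apply, aeval_eigen v.2]
  rw [this, map_smul, LinearMap.trace_one]
  rfl

/-- The set of eigenvalues is finite. -/
lemma exists_finset (f : Module.End K V) :
    ∃ Λ : Finset K, ∀ μ, f.eigenspace μ ≠ ⊥ ↔ μ ∈ Λ := by
  have := WellFoundedGT.finite_ne_bot_of_iSupIndep f.eigenspaces_iSupIndep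
  exact ⟨this.toFinset, fun μ => by rw [Set.Finite.mem_toFinset]; rfl⟩

/-- The eigenspaces of the restriction. -/
lemma restrict_diag [IsAlgClosed K] {f : Module.End K V} (hf : f.IsSemisimple)
    {M : Submodule K V} (hM : ∀ v ∈ M, f v ∈ M) :
    ⨆ μ, Module.End.eigenspace (f.restrict hM) μ = ⊤ :=
  (hf.restrict (p := M) hM).iSup_eigenspace_eq_top

end Pool.Agent.Helper54.MT
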