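import Pool.Agent.Helper54.MT.Iso
import Pool.Agent.Helper54.MT.Eig
import Pool.Agent.Helper21.MT.Extremal

/-!
Two commuting Lie algebras of infinitesimal symplectic operators which act irreducibly together.
-/

open Module Polynomial

namespace Pool.Agent.Helper54.MT

variable {K : Type*} [Field K] {V : Type*} [AddCommGroup V] [Module K V] [FiniteDimensional K V]

omit [FiniteDimensional K V] in
/-- Eigenspaces are stable under commuting operators. -/
lemma eigenspace_stable {f g : Module.End K V} (h : f * g = g * f) (μ : K) :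
    ∀ v ∈ f.eigenspace μ, g v ∈ f.eigenspace μ := by
  intro v hv
  rw [Module.End.mem_eigenspace_iff] at hv ⊢
  rw [← Module.End.mul_apply, h, Module.End.mul_apply, hv, map_smul]

lemma mult_symm {ω : LinearMap.BilinForm K V} (hω : ω.Nondegenerate) {f : Module.End K V}
    (hf : MTP.IsSk ω f) (a : K) :
    finrank K (f.eigenspace (-a)) = finrank K (f.eigenspace a) := by
  have h1 : MTP.rk (f - a • (1 : Module.End K V)) = MTP.rk (-(f - (-a) • (1 : Module.End K V))) := by
    apply MTP.rk_adjoint hω
    intro v w
    simp only [LinearMap.sub_apply, LinearMap.neg_apply, Module.End.one_apply, map_sub,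
      map_neg, map_smul, LinearMap.smul_apply, hf v w, neg_smul]
    simp
    ring
  rw [MTP.rk_neg] at h1
  have h2 := LinearMap.finrank_range_add_finrank_ker (f - a • (1 : Module.End K V))
  have h3 := LinearMap.finrank_range_add_finrank_ker (f - (-a) • (1 : Module.End K V))
  unfold MTP.rk at h1
  rw [Module.End.eigenspace_def, Module.End.eigenspace_def]
  omega

variable {I J : Submodule K (Module.End K V)}

lemma Two.semisimple [PerfectField K] (h : Two I J) {y1 y2 : Module.End K V} (h1 : y1 ∈ I)
    (h2 : y2 ∈ J) (hy : (y1 + y2).IsSemisimple) : y1.IsSemisimple ∧ y2.IsSemisimple := by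
  obtain ⟨n1, hn1, s1, hs1, nil1, ss1, e1⟩ := y1.exists_isNilpotent_isSemisimple
  obtain ⟨n2, hn2, s2, hs2, nil2, ss2, e2⟩ := y2.exists_isNilpotent_isSemisimple
  have up1 : Algebra.adjoin K ({y1} : Set (Module.End K V)) ≤ Algebra.adjoin K (I : Set _) :=
    Algebra.adjoin_mono (Set.singleton_subset_iff.mpr h1)
  have up2 : Algebra.adjoin K ({y2} : Set (Module.End K V)) ≤ Algebra.adjoin K (J : Set _) :=
    Algebra.adjoin_mono (Set.singleton_subset_iff.mpr h2)
  have c12 : ∀ x ∈ Algebra.adjoin K (I : Set (Module.End K V)),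
      ∀ y ∈ Algebra.adjoin K (J : Set (Module.End K V)), Commute x y := by
    intro x hx y hy
    induction hy using Algebra.adjoin_induction with
    | mem b hb => exact h.comm_adjoin hx hb
    | algebraMap r => exact (Algebra.commutes r x).symm
    | add a b _ _ ha hb => exact ha.add_right hb
    | mul a b _ _ ha hb => exact ha.mul_right hb
  have self1 : ∀ x ∈ Algebra.adjoin K ({y1} : Set (Module.End K V)), Commute x y1 := by
    intro x hx
    exact (Algebra.commute_of_mem_adjoin_self hx).symm
  have self2 : ∀ x ∈ Algebra.adjoin K ({y2} : Set (Module.End K V)), Commute x y2 := by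
    intro x hx
    exact (Algebra.commute_of_mem_adjoin_self hx).symm
  have mem1 : y1 ∈ Algebra.adjoin K (I : Set (Module.End K V)) := Algebra.subset_adjoin h1
  have mem2 : y2 ∈ Algebra.adjoin K (J : Set (Module.End K V)) := Algebra.subset_adjoin h2
  have cs : Commute s1 s2 := c12 _ (up1 hs1) _ (up2 hs2)
  have css : (s1 + s2).IsSemisimple := ss1.add_of_commute cs ss2
  have cy : Commute (y1 + y2) (s1 + s2) := by
    apply Commute.add_left
    · exact (Commute.add_left (self1 _ hs1) (c12 _ mem1 _ (up2 hs2)).symm).symm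
    · exact (Commute.add_left (c12 _ (up1 hs1) _ mem2) (self2 _ hs2)).symm
  have en : n1 + n2 = (y1 + y2) - (s1 + s2) := by
    have a1 : n1 = y1 - s1 := eq_sub_of_add_eq e1.symm
    have a2 : n2 = y2 - s2 := eq_sub_of_add_eq e2.symm
    rw [a1, a2]; abel
  have hss : (n1 + n2).IsSemisimple := by
    rw [en]
    exact hy.sub_of_commute cy css
  have hnil : IsNilpotent (n1 + n2) :=
    (c12 _ (up1 hn1) _ (up2 hn2)).isNilpotent_add nil1 nil2
  have h0 : n1 + n2 = 0 := Module.End.eq_zero_of_isNilpotent_isSemisimple hnil hss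
  have hn1' : n1 = -n2 := eq_neg_of_add_eq_zero_left h0
  have hzero : n1 = 0 := by
    rcases h.irr (LinearMap.ker n1)
      (by
        intro a ha w hw
        rw [LinearMap.mem_ker] at hw ⊢
        have hc : n2 * a = a * n2 := h.symm.comm_adjoin (up2 hn2) ha
        have hc' : n1 * a = a * n1 := by rw [hn1', neg_mul, mul_neg, hc]
        rw [← Module.End.mul_apply, hc', Module.End.mul_apply, hw, map_zero])
      (by
        intro b hb w hw
        rw [LinearMap.mem_ker] at hw ⊢
        have hc : n1 * b = b * n1 := h.comm_adjoin (up1 hn1) hb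
        rw [← Module.End.mul_apply, hc, Module.End.mul_apply, hw, map_zero]) with hk | hk
    · obtain ⟨m, hm⟩ := nil1
      have hinj : Function.Injective n1 := LinearMap.ker_eq_bot.mp hk
      have hp : ∀ m : ℕ, Function.Injective (n1 ^ m) := by
        intro m
        induction m with
        | zero => intro a b hab; exact hab
        | succ m ih =>
          intro a b hab
          rw [pow_succ, Module.End.mul_apply, Module.End.mul_apply] at hab
          exact hinj (ih hab)
      ext v
      have := hp m
      rw [hm] at this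
      rw [this (show (0 : Module.End K V) v = (0 : Module.End K V) 0 by simp)]
      simp
    · exact LinearMap.ker_eq_top.mp hk
  have hzero2 : n2 = 0 := by rw [hzero, zero_add] at h0; exact h0
  constructor
  · rw [e1, hzero, zero_add]; exact ss1
  · rw [e2, hzero2, zero_add]; exact ss2

/-- Joint eigenvectors. -/
lemma Two.joint (h : Two I J) {y1 y2 : Module.End K V} (h1 : y1 ∈ I) (h2 : y2 ∈ J) {a b : K}
    (ha : y1.eigenspace a ≠ ⊥) (hb : y2.eigenspace b ≠ ⊥) :
    y1.eigenspace a ⊓ y2.eigenspace b ≠ ⊥ := by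
  intro h0
  have c12 : y1 * y2 = y2 * y1 := h.comm y1 h1 y2 h2
  have hst := eigenspace_stable c12.symm b
  set M := y2.eigenspace b with hM
  set d : Module.End K V := y1 - algebraMap K _ a with hd
  have hdM : ∀ v ∈ M, d v ∈ M := by
    intro v hv
    rw [hd, LinearMap.sub_apply]
    exact M.sub_mem (hst v hv) (M.smul_mem a hv)
  have hinj : Function.Injective (d.restrict hdM) := by
    rw [← LinearMap.ker_eq_bot, eq_bot_iff]
    rintro ⟨v, hv⟩ hv'
    rw [LinearMap.mem_ker] at hv'
    have h3 : d v = 0 := congrArg Subtype.val hv'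
    have h4 : v ∈ y1.eigenspace a ⊓ M := by
      refine ⟨Module.End.mem_eigenspace_iff.mpr ?_, hv⟩
      rw [hd, LinearMap.sub_apply, sub_eq_zero] at h3
      exact h3
    rw [h0] at h4
    exact Subtype.ext ((Submodule.mem_bot K).mp h4)
  have hsurj : Function.Surjective (d.restrict hdM) := LinearMap.injective_iff_surjective.mp hinj
  have hR := h.eq_top (M := M) (R := LinearMap.range d) hb
    (by
      intro x hx w hw
      exact eigenspace_stable (h.comm x hx y2 h2).symm b w hw)
    (by
      rintro x hx _ ⟨w, rfl⟩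
      refine ⟨x w, ?_⟩
      have hc := h.comm y1 h1 x hx
      rw [hd, LinearMap.sub_apply, LinearMap.sub_apply, map_sub, ← Module.End.mul_apply, hc,
        Module.End.mul_apply]
      simp)
    (by
      intro v hv
      obtain ⟨w, hw⟩ := hsurj ⟨v, hv⟩
      exact ⟨w, congrArg Subtype.val hw⟩)
  have hs : Function.Surjective d := LinearMap.range_eq_top.mp hR
  have hi : Function.Injective d := LinearMap.injective_iff_surjective.mpr hs
  apply ha
  rw [Module.End.eigenspace_def, ← Algebra.algebraMap_eq_smul_one]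
  exact LinearMap.ker_eq_bot.mpr hi

/-- **The trace formula.** -/
theorem Two.trace_formula [CharZero K] [IsAlgClosed K] (h : Two I J) {y1 y2 : Module.End K V}
    (h1 : y1 ∈ I) (h2 : y2 ∈ J) (ss1 : y1.IsSemisimple) (ss2 : y2.IsSemisimple)
    (Λ1 Λ2 : Finset K) (hΛ1 : ∀ μ, y1.eigenspace μ ≠ ⊥ → μ ∈ Λ1)
    (hΛ2 : ∀ μ, y2.eigenspace μ ≠ ⊥ → μ ∈ Λ2) (p : K[X]) :
    (finrank K V : K) * LinearMap.trace K V (aeval (y1 + y2) p)
      = ∑ b ∈ Λ2, ∑ a ∈ Λ1, p.eval (a + b) * finrank K (y1.eigenspace a)
          * finrank K (y2.eigenspace b) := by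
  have c12 : y1 * y2 = y2 * y1 := h.comm y1 h1 y2 h2
  have hst : ∀ b, ∀ v ∈ y2.eigenspace b, (y1 + y2) v ∈ y2.eigenspace b := by
    intro b v hv
    rw [LinearMap.add_apply]
    refine (y2.eigenspace b).add_mem (eigenspace_stable c12.symm b v hv) ?_
    rw [Module.End.mem_eigenspace_iff] at hv
    rw [hv]
    exact (y2.eigenspace b).smul_mem _ (Module.End.mem_eigenspace_iff.mpr hv)
  have hst1 : ∀ b, ∀ v ∈ y2.eigenspace b, (y1 + algebraMap K (Module.End K V) b) v
      ∈ y2.eigenspace b := by
    intro b v hv
    rw [LinearMap.add_apply]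
    exact (y2.eigenspace b).add_mem (eigenspace_stable c12.symm b v hv)
      ((y2.eigenspace b).smul_mem b hv)
  rw [trace_sum ss2.iSup_eigenspace_eq_top Λ2 hΛ2 (fun b => aeval_stable (hst b) p),
    Finset.mul_sum]
  apply Finset.sum_congr rfl
  intro b _
  have e1 : aeval (y1 + algebraMap K (Module.End K V) b) p = aeval y1 (p.comp (X + C b)) := by
    rw [aeval_comp]
    simp
  have e2 : (aeval (y1 + y2) p).restrict (aeval_stable (hst b) p)
      = (aeval y1 (p.comp (X + C b))).restrict
        (by rw [← e1]; exact aeval_stable (hst1 b) p) := by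
    ext ⟨v, hv⟩
    rw [LinearMap.coe_restrict_apply, LinearMap.coe_restrict_apply, ← e1]
    apply aeval_eq_on (hst b) _ p v hv
    intro w hw
    rw [LinearMap.add_apply, LinearMap.add_apply]
    rw [Module.End.mem_eigenspace_iff] at hw
    rw [hw]
    rfl
  rw [e2, h.trace_mul (Algebra.adjoin_mono (Set.singleton_subset_iff.mpr h1)
    (aeval_mem_adjoin_singleton K y1)), trace_aeval ss1.iSup_eigenspace_eq_top Λ1 hΛ1,
    Finset.mul_sum]
  · apply Finset.sum_congr rfl
    intro a _
    rw [eval_comp]
    simp only [eval_add, eval_X, eval_C]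
    ring
  · intro x hx w hw
    exact eigenspace_stable (h.comm x hx y2 h2).symm b w hw

end Pool.Agent.Helper54.MT
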