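import Pool.Agent.Helper54.MT.Parity

/-!
# The sum of the roots pairing to one with a small weight
-/

namespace Pool.Agent.Helper54.MT

open RootPairing

variable {ι K M N : Type*} [Field K] [CharZero K] [AddCommGroup M] [Module K M]
  [AddCommGroup N] [Module K N] {P : RootPairing ι K M N} [Fintype ι]

/-- The operator `x ↦ ∑ ⟨x, α^∨⟩ α`. -/
noncomputable def tt (P : RootPairing ι K M N) : M →ₗ[K] M :=
  ∑ i, (P.coroot' i).smulRight (P.root i)

theorem tt_apply (x : M) : tt P x = ∑ i, P.coroot' i x • P.root i := by
  simp [tt]

theorem tt_reflection (j : ι) (x : M) : tt P (P.reflection j x) = P.reflection j (tt P x) := by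
  rw [tt_apply, tt_apply, map_sum]
  symm
  refine Finset.sum_equiv (P.reflectionPerm j) (by simp) ?_
  intro i _
  rw [map_smul, ← P.root_reflectionPerm]
  congr 1
  have h := P.coroot'_reflectionPerm (i := j) (j := i)
  rw [h]
  simp

theorem exists_scalar [IsAlgClosed K] [FiniteDimensional K M] [P.IsIrreducible] :
    ∃ c : K, ∀ x, ∑ i, P.coroot' i x • P.root i = c • x := by
  have := IsIrreducible.nontrivial P
  obtain ⟨c, hc⟩ := Module.End.exists_eigenvalue (tt P)
  have htop : Module.End.eigenspace (tt P) c = ⊤ := by
    apply IsIrreducible.eq_top_of_invtSubmodule_reflection (P := P)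
    · intro i
      rw [Module.End.mem_invtSubmodule]
      intro x hx
      rw [Submodule.mem_comap, Module.End.mem_eigenspace_iff]
      rw [Module.End.mem_eigenspace_iff] at hx
      have : tt P (P.reflection i x) = P.reflection i (tt P x) := tt_reflection i x
      rw [hx, map_smul] at this
      exact this
    · exact hc
  refine ⟨c, fun x => ?_⟩
  have hx : x ∈ Module.End.eigenspace (tt P) c := by rw [htop]; trivial
  rw [Module.End.mem_eigenspace_iff, tt_apply] at hx
  exact hx

/-- The index of the opposite root. -/
noncomputable def opp (P : RootPairing ι K M N) (i : ι) : ι := P.reflectionPerm i i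

theorem root_opp (i : ι) : P.root (opp P i) = -P.root i := by
  rw [opp, P.root_reflectionPerm, reflection_apply_self]

theorem coroot_opp (i : ι) (x : M) : P.coroot' (opp P i) x = -P.coroot' i x := by
  rw [opp, ← P.coroot'_reflection, reflection_apply, map_sub, map_smul]
  simp
  ring

theorem opp_opp (i : ι) : opp P (opp P i) = i := by
  apply P.root.injective
  rw [root_opp, root_opp, neg_neg]

theorem two_sum [DecidableEq ι] {x : M} (hx : Small P x) {c : K}
    (hc : ∑ i, P.coroot' i x • P.root i = c • x)
    (S : Finset ι) (hS : ∀ i, i ∈ S ↔ P.coroot' i x = 1) :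
    (2 : K) • ∑ i ∈ S, P.root i = c • x := by
  have e : ∀ i, P.coroot' i x • P.root i =
      (if i ∈ S then P.root i else 0) + (if opp P i ∈ S then P.root (opp P i) else 0) := by
    intro i
    have h1 := hS i
    have h2 := hS (opp P i)
    rw [coroot_opp] at h2
    rw [root_opp]
    rcases hx i with h | h | h
    · rw [h] at h1 h2
      rw [if_neg (by rw [h1]; norm_num), if_pos (by rw [h2]; norm_num), h]
      simp
    · rw [h] at h1 h2
      rw [if_neg (by rw [h1]; norm_num), if_neg (by rw [h2]; norm_num), h]
      simp
    · rw [h] at h1 h2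
      rw [if_pos (by rw [h1]), if_neg (by rw [h2]; norm_num), h]
      simp
  have e2 : ∑ i, (if opp P i ∈ S then P.root (opp P i) else 0) =
      ∑ i, (if i ∈ S then P.root i else 0) := by
    refine Finset.sum_nbij' (opp P) (opp P) ?_ ?_ ?_ ?_ ?_
    · intro i _; exact Finset.mem_univ _
    · intro i _; exact Finset.mem_univ _
    · intro i _; exact opp_opp i
    · intro i _; exact opp_opp i
    · intro i _; rfl
  have e3 : ∑ i, (if i ∈ S then P.root i else 0) = ∑ i ∈ S, P.root i := by
    rw [Finset.sum_ite_mem, Finset.univ_inter]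
  rw [← hc]
  simp only [e]
  rw [Finset.sum_add_distrib, e2, e3, two_smul]

end Pool.Agent.Helper54.MT
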